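import Mathlib

set_option autoImplicit false
set_option linter.all false

/-!
# Powers of products with elements of an abelian normal subgroup

Calculus in a group `K` with an abelian normal subgroup `A`, written additively as a module for `K`.
-/

open scoped commutatorElement IsMulCommutative

namespace Pool.Agent.W5h53.BC

universe u

section

variable {K : Type u} [Group K] {A : Subgroup K} [A.Normal]

/-- the embedding of the additive version of `A` -/
def io (v : Additive A) : K := ((Additive.toMul v : A) : K)

theorem io_mem (v : Additive A) : io v ∈ A := (Additive.toMul v : A).2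

theorem io_zero : io (0 : Additive A) = 1 := rfl

theorem io_add (v w : Additive A) : io (v + w) = io v * io w := rfl

theorem io_neg (v : Additive A) : io (-v) = (io v)⁻¹ := rfl

theorem io_inj {v w : Additive A} (h : io v = io w) : v = w :=
  Additive.toMul.injective (Subtype.ext h)

theorem io_eq_one {v : Additive A} : io v = 1 ↔ v = 0 :=
  ⟨fun h => io_inj (h.trans io_zero.symm), fun h => by rw [h]; rfl⟩

theorem io_nsmul (n : ℕ) (v : Additive A) : io (n • v) = io v ^ n := by
  induction n with
  | zero => simp [io_zero]
  | succ n ih => rw [succ_nsmul, io_add, ih, pow_succ]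

theorem exists_io {x : K} (hx : x ∈ A) : ∃ v : Additive A, io v = x :=
  ⟨Additive.ofMul ⟨x, hx⟩, rfl⟩

/-- conjugation with `g` on `A` -/
def ac (g : K) : Additive A →+ Additive A := MonoidHom.toAdditive (MulAut.conjNormal g).toMonoidHom

theorem io_ac (g : K) (v : Additive A) : io (ac g v) = g * io v * g⁻¹ := rfl

theorem mul_io (g : K) (v : Additive A) : g * io v = io (ac g v) * g := by
  rw [io_ac]; group

theorem ac_one (v : Additive A) : ac (1 : K) v = v := io_inj (by rw [io_ac]; group)

theorem ac_mul (g h : K) (v : Additive A) : ac (g * h) v = ac g (ac h v) :=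
  io_inj (by rw [io_ac, io_ac, io_ac]; group)

variable [IsMulCommutative A]

/-- the operator `g - 1` on `A` -/
def D (g : K) : Additive A →+ Additive A := (ac g : Additive A →+ Additive A) - AddMonoidHom.id (Additive A)

theorem D_apply (g : K) (v : Additive A) : D g v = ac g v - v := rfl

theorem ac_eq (g : K) (v : Additive A) : ac g v = v + D g v := by
  rw [D_apply]; abel

theorem D_mul (g h : K) (v : Additive A) : D (g * h) v = D g v + D h v + D g (D h v) := by
  rw [D_apply, ac_mul, ac_eq h, ac_eq g, map_add]; abel

theorem D_io (w v : Additive A) : D (io w) v = 0 := by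
  rw [D_apply, sub_eq_zero]
  apply io_inj
  rw [io_ac, ← io_add, ← io_neg, ← io_add]
  congr 1
  abel

theorem D_one (v : Additive A) : D (1 : K) v = 0 := by rw [D_apply, ac_one, sub_self]

/-- operators of third order vanish -/
def Three (A : Subgroup K) [A.Normal] [IsMulCommutative A] : Prop :=
  ∀ (g h k : K) (v : Additive A), D g (D h (D k v)) = 0

theorem ac_pow (h3 : Three A) (g : K) (j : ℕ) (v : Additive A) :
    ac (g ^ j) v = v + j • D g v + j.choose 2 • D g (D g v) := by
  induction j with
  | zero => simp [ac_one]
  | succ j ih =>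
    rw [pow_succ', ac_mul, ih, ac_eq g, map_add, map_add, map_nsmul, map_nsmul, h3,
      Nat.choose_succ_succ' j 1, Nat.choose_one_right, add_nsmul, add_nsmul, one_nsmul, smul_zero]
    simp only [Nat.reduceAdd]
    abel

theorem D_pow (h3 : Three A) (g : K) (j : ℕ) (v : Additive A) :
    D (g ^ j) v = j • D g v + j.choose 2 • D g (D g v) := by
  rw [D_apply, ac_pow h3]; abel

theorem io_mul_pow (h3 : Three A) (g : K) (v : Additive A) (n : ℕ) :
    (io v * g) ^ n = io (n • v + n.choose 2 • D g v + n.choose 3 • D g (D g v)) * g ^ n := by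
  induction n with
  | zero => simp [io_zero]
  | succ n ih =>
    rw [pow_succ, ih, mul_assoc, ← mul_assoc (g ^ n), mul_io, ac_pow h3, mul_assoc, ← pow_succ,
      ← mul_assoc, ← io_add, Nat.choose_succ_succ' n 1, Nat.choose_succ_succ' n 2,
      Nat.choose_one_right]
    congr 2
    simp only [add_nsmul, one_nsmul, Nat.reduceAdd]
    abel

/-- `u` behaves like an element of weight two -/
def Two (A : Subgroup K) [A.Normal] [IsMulCommutative A] (u : K) : Prop :=
  (∀ (g : K) (v : Additive A), D u (D g v) = 0) ∧ (∀ (g : K) (v : Additive A), D g (D u v) = 0) ∧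
    ∀ g : K, ⁅g, u⁆ ∈ A

theorem pow_mul_comm' (h3 : Three A) {u g : K} {w : Additive A} (hw : io w = ⁅g, u⁆) (j : ℕ) :
    g ^ j * u = io (j • w + j.choose 2 • D g w + j.choose 3 • D g (D g w)) * u * g ^ j := by
  induction j with
  | zero => simp [io_zero]
  | succ j ih =>
    have h1 : g * u = io w * u * g := by rw [hw, commutatorElement_def]; group
    rw [pow_succ, mul_assoc, h1, mul_assoc, ← mul_assoc (g ^ j), mul_io, ac_pow h3, mul_assoc,
      ← mul_assoc (g ^ j), ih, ← mul_assoc, ← mul_assoc, ← mul_assoc, ← io_add, mul_assoc,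
      ← pow_succ, Nat.choose_succ_succ' j 1, Nat.choose_succ_succ' j 2, Nat.choose_one_right]
    congr 3
    simp only [add_nsmul, one_nsmul, Nat.reduceAdd]
    abel

theorem mul_pow_two (h3 : Three A) {u g : K} (hu : Two A u) {w : Additive A} (hw : io w = ⁅g, u⁆)
    (n : ℕ) : (u * g) ^ n = io (n.choose 2 • w + n.choose 3 • D g w + n.choose 4 • D g (D g w) +
      (n.choose 2 + 2 * n.choose 3) • D u w) * u ^ n * g ^ n := by
  induction n with
  | zero => simp [io_zero]
  | succ n ih =>
    have h1 : ∀ v : Additive A, ac (u ^ n) v = v + n • D u v := by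
      intro v
      rw [ac_pow h3, hu.1, smul_zero, add_zero]
    have h2 : n * n = n + 2 * n.choose 2 := by
      rw [Nat.choose_two_right, Nat.mul_div_cancel' (Nat.even_mul_pred_self n).two_dvd]
      cases n with
      | zero => rfl
      | succ n => simp only [Nat.add_sub_cancel]; ring
    rw [pow_succ, ih, mul_assoc _ (g ^ n), ← mul_assoc (g ^ n), pow_mul_comm' h3 hw, mul_assoc _ _ g,
      ← pow_succ, mul_assoc _ (u ^ n), ← mul_assoc (u ^ n), ← mul_assoc (u ^ n), mul_io, h1,
      mul_assoc _ (u ^ n) u, ← pow_succ, ← mul_assoc, ← mul_assoc, ← io_add,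
      map_add, map_add, map_nsmul, map_nsmul, map_nsmul, hu.1, hu.1, smul_zero, smul_zero,
      add_zero, add_zero, smul_smul, h2, Nat.choose_succ_succ' n 1, Nat.choose_succ_succ' n 2,
      Nat.choose_succ_succ' n 3, Nat.choose_one_right]
    congr 3
    simp only [add_nsmul, mul_nsmul, one_nsmul, mul_add, two_nsmul, Nat.reduceAdd]
    abel

end

end Pool.Agent.W5h53.BC
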