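import Mathlib
import Pool.Agent.W5h53.BC.Calc

set_option autoImplicit false
set_option linter.all false

/-!
# Commuting powers in groups of class at most five
-/

open scoped commutatorElement IsMulCommutative

namespace Pool.Agent.W5h53.BC

universe u

section

variable {K : Type u} [Group K] {A : Subgroup K} [A.Normal] [IsMulCommutative A]

theorem kill {M : Type*} [AddCommGroup M] {v : M} {a b : ℕ} (h : a • v = 0) (hd : a ∣ b) :
    b • v = 0 := by
  obtain ⟨c, rfl⟩ := hd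
  rw [mul_comm, mul_nsmul', h, smul_zero]

/-- the exponent of the factor -/
def mm (q : ℕ) (g u : K) (w : Additive A) : Additive A :=
  q.choose 2 • w + q.choose 3 • D g w + q.choose 4 • D g (D g w) +
    (q.choose 2 + 2 * q.choose 3) • D u w

theorem comm_of (h3 : Three A) (hU : ∀ x y : K, Two A ⁅x, y⁆) (q : ℕ) (a b : K)
    {w t : Additive A} (hw : io w = ⁅a, ⁅b, a⁆⁆) (ht : io t = ⁅b, ⁅a, b⁆⁆)
    (h1 : ∀ w' : Additive A,
      w' = q • t + q.choose 2 • D ⁅a, b⁆ t - D b (mm q a ⁅b, a⁆ w) → 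
      (∀ v : Additive A, D ⁅a ^ q, b⁆ v = q • D ⁅a, b⁆ v) → mm q b ⁅a ^ q, b⁆ w' = 0)
    (h2 : q • mm q a ⁅b, a⁆ w = 0) (h2' : (q * q) • D ⁅a, b⁆ (mm q a ⁅b, a⁆ w) = 0)
    (h4 : (q.choose 2 * q) • D ⁅a, b⁆ (mm q a ⁅b, a⁆ w) = 0) (h5 : ∀ x : K, x ^ (q * q) = 1) :
    Commute (a ^ q) (b ^ q) := by
  set u : K := ⁅a, b⁆ with hu
  set u' : K := ⁅b, a⁆ with hu'
  set V : K := ⁅a ^ q, b⁆ with hV
  set m : Additive A := mm q a u' w with hm
  have hinv : u' = u⁻¹ := by rw [hu, hu', commutatorElement_inv]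
  have hUu : Two A u := hU a b
  have e1 : V = u ^ q * io (-m) := by
    have h6 : b * a * b⁻¹ = u' * a := by rw [hu', commutatorElement_def]; group
    have h7 : b * a ^ q * b⁻¹ = io m * u' ^ q * a ^ q := by
      rw [← conj_pow, h6, mul_pow_two h3 (hU b a) hw]
      rfl
    have h8 : V = a ^ q * (b * a ^ q * b⁻¹)⁻¹ := by rw [hV, commutatorElement_def]; group
    rw [h8, h7, hinv, io_neg]
    group
  have hDq : ∀ v : Additive A, D (u ^ q) v = q • D u v := by
    intro v
    rw [D_pow h3, hUu.1, smul_zero, add_zero]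
  have hDV : ∀ v : Additive A, D V v = q • D u v := by
    intro v
    rw [e1, D_mul, D_io, map_zero, add_zero, add_zero, hDq]
  have e2 : io (q • t + q.choose 2 • D u t - D b m) = ⁅b, V⁆ := by
    have h6 : b * u * b⁻¹ = io t * u := by rw [ht, commutatorElement_def]; group
    have h7 : b * u ^ q * b⁻¹ = io (q • t + q.choose 2 • D u t) * u ^ q := by
      rw [← conj_pow, h6, io_mul_pow h3, hUu.1, smul_zero, add_zero]
    have h8 : b * V * b⁻¹ = io (q • t + q.choose 2 • D u t) * u ^ q * io (-(ac b m)) := by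
      rw [← h7, ← map_neg, io_ac, e1]; group
    have h9 : ⁅b, V⁆ = b * V * b⁻¹ * V⁻¹ := by rw [commutatorElement_def]
    have h10 : V⁻¹ = io m * (u ^ q)⁻¹ := by rw [e1, io_neg]; group
    have h11 : u ^ q * io (-(D b m)) * (u ^ q)⁻¹ = io (-(D b m)) := by
      rw [← io_ac, ac_eq, map_neg, hDq, hUu.1, smul_zero, neg_zero, add_zero]
    rw [h9, h8, h10, sub_eq_add_neg, io_add, ← h11]
    have h12 : io (-(D b m)) = io (-(ac b m)) * io m := by
      rw [← io_add, D_apply]; congr 1; abel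
    rw [h12]; group
  have e3 : mm q b V (q • t + q.choose 2 • D u t - D b m) = 0 := h1 _ rfl hDV
  have e4 : (V * b) ^ q = V ^ q * b ^ q := by
    rw [mul_pow_two h3 (hU (a ^ q) b) e2]
    have : mm q b V (q • t + q.choose 2 • D u t - D b m) = 0 := e3
    unfold mm at this
    rw [this, io_zero, one_mul]
  have e5 : V ^ q = 1 := by
    have h6 : V = io (-(m + q • D u m)) * u ^ q := by
      rw [e1, mul_io, ac_eq, hDq, map_neg]
      congr 2
      rw [neg_add, smul_neg]
    have h7 : ∀ v : Additive A, D (u ^ q) (D (u ^ q) v) = 0 := by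
      intro v
      rw [hDq v, map_nsmul, hDq, hUu.1, smul_zero, smul_zero]
    have h8 : q • -(m + q • D u m) = 0 := by
      rw [smul_neg, smul_add, h2, smul_smul, h2', add_zero, neg_zero]
    have h9 : q.choose 2 • D (u ^ q) (-(m + q • D u m)) = 0 := by
      rw [hDq, map_neg, map_add, map_nsmul, hUu.1, smul_zero, add_zero, smul_neg, smul_neg,
        smul_smul, h4, neg_zero]
    rw [h6, io_mul_pow h3, h7, h8, h9, smul_zero, add_zero, add_zero, io_zero, one_mul, ← pow_mul,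
      h5]
  have e6 : V * b = a ^ q * b * (a ^ q)⁻¹ := by rw [hV, commutatorElement_def]; group
  rw [e5, one_mul, e6, conj_pow] at e4
  have : a ^ q * b ^ q = b ^ q * a ^ q := by
    rw [← mul_inv_eq_iff_eq_mul]; exact e4
  exact this

/-- the relation from `(v g) ^ n = 1` -/
theorem rel1 (h3 : Three A) {n : ℕ} (hn : ∀ x : K, x ^ n = 1) (g : K) (v : Additive A) :
    n • v = 0 ∧ n.choose 2 • D g v + n.choose 3 • D g (D g v) = 0 := by
  have h1 : n • v = 0 := by
    rw [← io_eq_one, io_nsmul, hn]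
  refine ⟨h1, ?_⟩
  have h2 := io_mul_pow h3 g v n
  rw [hn, hn, mul_one, h1, zero_add] at h2
  exact io_eq_one.1 h2.symm

theorem rel2 (h3 : Three A) {n : ℕ} (hn : ∀ x : K, x ^ n = 1) {u g : K} (hu : Two A u)
    {w : Additive A} (hw : io w = ⁅g, u⁆) : mm n g u w = 0 := by
  have h2 := mul_pow_two h3 hu hw n
  rw [hn, hn, hn, mul_one, mul_one] at h2
  exact io_eq_one.1 h2.symm

theorem choose_two (n : ℕ) : 2 * n.choose 2 + n = n * n := by
  induction n with
  | zero => rfl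
  | succ n ih =>
    rw [Nat.choose_succ_succ' n 1, Nat.choose_one_right]
    simp only [Nat.reduceAdd]
    nlinarith

/-- exponent `8 c` -/
theorem case_two (h3 : Three A) (hU : ∀ x y : K, Two A ⁅x, y⁆) (c : ℕ)
    (hn : ∀ x : K, x ^ (8 * c) = 1) (hA : 8 * c ∣ (8 * c).choose 3) (hB : 4 * c ∣ (4 * c).choose 3)
    (a b : K) : Commute (a ^ (4 * c)) (b ^ (4 * c)) := by
  have n0 : ∀ v : Additive A, (8 * c) • v = 0 := fun v => (rel1 h3 hn 1 v).1
  have q0 : ∀ (g : K) (v : Additive A), (4 * c) • D g v = 0 := by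
    intro g v
    have h1 := (rel1 h3 hn g v).2
    rw [kill (n0 _) hA, add_zero] at h1
    have h2 : (8 * c).choose 2 + 4 * c = (4 * c) * (8 * c) := by
      have := choose_two (8 * c)
      nlinarith
    have h3' : ((8 * c).choose 2 + 4 * c) • D g v = 0 := by
      rw [h2]; exact kill (n0 _) (dvd_mul_left _ _)
    rwa [add_nsmul, h1, zero_add] at h3'
  have e2 : (4 * c).choose 2 = 2 * c * (4 * c - 1) := by
    have := choose_two (4 * c)
    rcases Nat.eq_zero_or_pos c with rfl | hc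
    · rfl
    · obtain ⟨d, hd⟩ : ∃ d, 4 * c = d + 1 := ⟨4 * c - 1, by omega⟩
      rw [hd, Nat.add_sub_cancel]
      rw [hd] at this
      nlinarith
  obtain ⟨w, hw⟩ := exists_io ((hU b a).2.2 a)
  obtain ⟨t, ht⟩ := exists_io ((hU a b).2.2 b)
  have hu := hU a b
  have hu' := hU b a
  refine comm_of h3 hU (4 * c) a b hw ht ?_ ?_ ?_ ?_ ?_
  · rintro w' rfl hV
    unfold mm
    have k1 : 8 * c ∣ (4 * c).choose 2 * (4 * c) := by
      rw [e2]; exact ⟨c * (4 * c - 1), by ring⟩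
    have k2 : 4 * c ∣ (4 * c).choose 2 * (4 * c).choose 2 := by
      rw [e2]; exact ⟨c * (4 * c - 1) * (4 * c - 1), by ring⟩
    rw [hV, kill (q0 _ _) hB, smul_smul _ (4 * c), kill (q0 _ _) (dvd_mul_left _ _), add_zero, add_zero]
    simp only [map_add, map_sub, map_nsmul, h3 _ _ _ _, hu'.2.1, hu.2.1, map_zero, smul_zero, add_zero,
      sub_zero, smul_add, smul_sub, smul_smul]
    rw [kill (n0 _) k1, kill (q0 _ _) k2, kill (q0 _ _) k2, kill (q0 _ _) (dvd_mul_left _ _),
      kill (q0 _ _) (dvd_mul_of_dvd_left hB _), kill (q0 _ _) (dvd_mul_left _ _)]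
    simp
  · unfold mm
    have k1 : 8 * c ∣ (4 * c) * (4 * c).choose 2 := by
      rw [e2]; exact ⟨c * (4 * c - 1), by ring⟩
    simp only [smul_add, smul_smul]
    rw [kill (n0 _) k1, kill (q0 _ _) (dvd_mul_right _ _), kill (q0 _ _) (dvd_mul_right _ _),
      kill (q0 _ _) (dvd_mul_right _ _)]
    simp
  · exact kill (q0 _ _) (dvd_mul_right _ _)
  · exact kill (q0 _ _) (dvd_mul_left _ _)
  · intro x
    rw [show 4 * c * (4 * c) = (8 * c) * (2 * c) by ring, pow_mul, hn, one_pow]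

/-- exponent `9 c` -/
theorem case_three (h3 : Three A) (hU : ∀ x y : K, Two A ⁅x, y⁆) (c : ℕ)
    (hn : ∀ x : K, x ^ (9 * c) = 1) (hA2 : 9 * c ∣ (9 * c).choose 2)
    (hA3 : ∃ e, (9 * c).choose 3 = 3 * c + 9 * c * e) (hA4 : 9 * c ∣ (9 * c).choose 4)
    (hB2 : 3 * c ∣ (3 * c).choose 2) (hB4 : 3 * c ∣ (3 * c).choose 4)
    (a b : K) : Commute (a ^ (3 * c)) (b ^ (3 * c)) := by
  have n0 : ∀ v : Additive A, (9 * c) • v = 0 := fun v => (rel1 h3 hn 1 v).1
  have z3 : ∀ (g h k : K) (v : Additive A), D g (D h (D k v)) = 0 := h3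
  obtain ⟨e, he⟩ := hA3
  have n3 : ∀ v : Additive A, (9 * c).choose 3 • v = (3 * c) • v := by
    intro v
    rw [he, add_nsmul, kill (n0 _) (dvd_mul_right _ _), add_zero]
  have F1 : ∀ (g : K) (v : Additive A), (3 * c) • D g (D g v) = 0 := by
    intro g v
    have h1 := (rel1 h3 hn g v).2
    rwa [kill (n0 _) hA2, zero_add, n3] at h1
  have two0 : ∀ v : Additive A, 2 • (3 * c) • v = 0 → (3 * c) • v = 0 := by
    intro v hv
    have h1 : 3 • (3 * c) • v = 0 := by
      rw [smul_smul, show 3 * (3 * c) = 9 * c by ring, n0]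
    rw [show 3 = 2 + 1 from rfl, add_nsmul, hv, zero_add, one_nsmul] at h1
    exact h1
  have R : ∀ (x y g : K) (w : Additive A), io w = ⁅g, ⁅x, y⁆⁆ →
      (3 * c) • D g w + 2 • (3 * c) • D ⁅x, y⁆ w = 0 := by
    intro x y g w hw
    have h1 := rel2 h3 hn (hU x y) hw
    unfold mm at h1
    rw [kill (n0 _) hA2, kill (n0 _) hA4, n3, add_nsmul, kill (n0 _) hA2, mul_smul 2, n3, zero_add,
      zero_add, add_zero] at h1
    exact h1
  have F2 : ∀ (x y g : K) (w : Additive A), io w = ⁅g, ⁅x, y⁆⁆ →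
      (3 * c) • D g w = 0 ∧ (3 * c) • D ⁅x, y⁆ w = 0 := by
    intro x y g w hw
    have h1 := R x y g w hw
    have hu := hU x y
    have h2 : io (-(ac g⁻¹ w)) = ⁅g⁻¹, ⁅x, y⁆⁆ := by
      rw [io_neg, io_ac, hw, commutatorElement_def g, commutatorElement_def g⁻¹]; group
    have h4 := R x y g⁻¹ _ h2
    have h5 : D ⁅x, y⁆ (-(ac g⁻¹ w)) = - D ⁅x, y⁆ w := by
      rw [map_neg, ac_eq, map_add, hu.1, add_zero]
    have h6 : (3 * c) • D g⁻¹ (-(ac g⁻¹ w)) = (3 * c) • D g w := by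
      have h7 : ∀ v : Additive A, D g⁻¹ v = - D g v + D g (D g v) := by
        intro v
        have h8 := D_mul g⁻¹ g v
        have h9 := D_mul g⁻¹ g (D g v)
        rw [inv_mul_cancel, D_one] at h8 h9
        rw [h3, add_zero] at h9
        have h10 : D g⁻¹ (D g v) = - D g (D g v) := by
          rw [eq_neg_iff_add_eq_zero]; exact h9.symm
        rw [h10] at h8
        have : D g⁻¹ v = D g⁻¹ v + D g v + -(D g (D g v)) + (-(D g v) + D g (D g v)) := by abel
        rw [this, ← h8, zero_add]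
      rw [ac_eq, map_neg, map_add, h7 w, map_add, map_neg, h7 (D g w)]
      simp only [h7, h3, map_add, map_neg, smul_add, smul_neg, F1]
      abel_nf
    rw [h5, h6, smul_neg, smul_neg] at h4
    have h8 : 2 • (3 * c) • D g w = 0 := by
      have : 2 • (3 * c) • D g w = ((3 * c) • D g w + 2 • (3 * c) • D ⁅x, y⁆ w) +
        ((3 * c) • D g w + -(2 • (3 * c) • D ⁅x, y⁆ w)) := by
        rw [two_nsmul ((3 * c) • D g w)]; abel
      rw [this, h1, h4, add_zero]
    have h9 := two0 _ h8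
    refine ⟨h9, two0 _ ?_⟩
    rwa [h9, zero_add] at h1
  obtain ⟨w, hw⟩ := exists_io ((hU b a).2.2 a)
  obtain ⟨t, ht⟩ := exists_io ((hU a b).2.2 b)
  have hu := hU a b
  have hu' := hU b a
  have hinv : ⁅b, a⁆ = ⁅a, b⁆⁻¹ := by rw [commutatorElement_inv]
  have hDu : ∀ v : Additive A, D ⁅a, b⁆ v = - D ⁅b, a⁆ v := by
    intro v
    have h1 := D_mul ⁅a, b⁆ ⁅b, a⁆ v
    rw [hu.1, add_zero, hinv, mul_inv_cancel, D_one, ← hinv] at h1
    rw [eq_neg_iff_add_eq_zero]; exact h1.symm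
  have F3 : (3 * c) • D b (D a w) = 0 := by
    have h1 : (3 * c) • (D a (D b w) + D b (D a w)) = 0 := by
      have h2 := F1 (a * b) w
      rw [D_mul, D_mul a b w] at h2
      simp only [map_add, z3, add_zero, smul_add, F1, zero_add] at h2
      rw [smul_add]
      exact h2
    have h2 : (3 * c) • (D a (D b w) - D b (D a w)) = 0 := by
      have h4 : D (a * b) w = D (⁅a, b⁆ * (b * a)) w := by
        congr 2
        rw [commutatorElement_def]; group
      rw [D_mul, D_mul ⁅a, b⁆, D_mul b, map_add (D ⁅a, b⁆), map_add (D ⁅a, b⁆), hu.1, hu.1, hu.1,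
        add_zero, add_zero, add_zero] at h4
      have h5 : D a (D b w) - D b (D a w) = D ⁅a, b⁆ w := by
        rw [sub_eq_iff_eq_add]
        have h6 : D a w + D b w + D a (D b w) = D a w + D b w + (D ⁅a, b⁆ w + D b (D a w)) := by
          rw [h4]; abel
        exact add_left_cancel h6
      rw [h5, hDu, smul_neg, (F2 b a a w hw).2, neg_zero]
    apply two0
    have h4 : 2 • (3 * c) • D b (D a w) = (3 * c) • (D a (D b w) + D b (D a w)) -
        (3 * c) • (D a (D b w) - D b (D a w)) := by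
      rw [two_nsmul, smul_add, smul_sub]; abel
    rw [h4, h1, h2, sub_zero]
  have k1 : 9 * c ∣ (3 * c) * (3 * c) := ⟨c, by ring⟩
  have k2 : 9 * c ∣ (3 * c).choose 2 * (3 * c) := k1.trans (Nat.mul_dvd_mul_right hB2 _)
  have k3 : 9 * c ∣ (3 * c) * (3 * c).choose 2 := by rw [mul_comm (3 * c)]; exact k2
  refine comm_of h3 hU (3 * c) a b hw ht ?_ ?_ ?_ ?_ ?_
  · rintro w' rfl hV
    have q1 : (3 * c) • ((3 * c) • t + (3 * c).choose 2 • D ⁅a, b⁆ t - D b (mm (3 * c) a ⁅b, a⁆ w)) =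
        0 := by
      unfold mm
      simp only [map_add, map_nsmul, z3, hu'.2.1, smul_zero, add_zero, smul_sub, smul_add, smul_smul]
      rw [kill (n0 _) k1, kill (n0 _) k3, kill (n0 _) k3, kill F3 (dvd_mul_right _ _)]
      simp
    have q2 : D b ((3 * c) • t + (3 * c).choose 2 • D ⁅a, b⁆ t - D b (mm (3 * c) a ⁅b, a⁆ w)) =
        0 := by
      unfold mm
      simp only [map_add, map_sub, map_nsmul, z3, hu'.2.1, hu.2.1, map_zero, smul_zero, add_zero,
        smul_sub, smul_add, smul_smul]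
      rw [(F2 a b b t ht).1, kill (F1 _ _) hB2]
      simp
    have q3 : (3 * c) • D ⁅a, b⁆ ((3 * c) • t + (3 * c).choose 2 • D ⁅a, b⁆ t -
        D b (mm (3 * c) a ⁅b, a⁆ w)) = 0 := by
      rw [← map_nsmul, q1, map_zero]
    have q4 : D ⁅a ^ (3 * c), b⁆ ((3 * c) • t + (3 * c).choose 2 • D ⁅a, b⁆ t -
        D b (mm (3 * c) a ⁅b, a⁆ w)) = 0 := by
      rw [hV, q3]
    have q5 : (3 * c).choose 2 • ((3 * c) • t + (3 * c).choose 2 • D ⁅a, b⁆ t -
        D b (mm (3 * c) a ⁅b, a⁆ w)) = 0 := kill q1 hB2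
    rw [mm, q5, q2, q4]
    simp
  · unfold mm
    simp only [smul_add, smul_smul]
    rw [kill (n0 _) k3, kill (F2 b a a w hw).1 (dvd_mul_right _ _), kill (F1 _ _) (dvd_mul_right _ _),
      kill (F2 b a a w hw).2 (dvd_mul_right _ _)]
    simp
  · exact kill (n0 _) k1
  · exact kill (n0 _) k2
  · intro x
    rw [show 3 * c * (3 * c) = (9 * c) * c by ring, pow_mul, hn, one_pow]

end

end Pool.Agent.W5h53.BC
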