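import Mathlib
import Pool.Agent.W5h53.BC.Core

set_option autoImplicit false
set_option linter.all false

/-!
# Groups of class at most five and exponent `2 ^ k` or `3 ^ k`
-/

open scoped commutatorElement IsMulCommutative

namespace Pool.Agent.W5h53.BC

universe u

section

variable {G : Type u} [Group G]

theorem three (N H1 H2 H3 : Subgroup G) [N.Normal] (h1 : ⁅⁅H2, H3⁆, H1⁆ ≤ N)
    (h2 : ⁅⁅H3, H1⁆, H2⁆ ≤ N) : ⁅⁅H1, H2⁆, H3⁆ ≤ N := by
  have key : ∀ X : Subgroup G, X ≤ N ↔ X.map (QuotientGroup.mk' N) = ⊥ := by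
    intro X
    rw [Subgroup.map_eq_bot_iff, QuotientGroup.ker_mk']
  rw [key, Subgroup.map_commutator, Subgroup.map_commutator] at h1 h2 ⊢
  exact Subgroup.commutator_commutator_eq_bot_of_rotate h1 h2

theorem lcs_comm (j : ℕ) : ∀ i, ⁅(⊤ : Subgroup G).lowerCentralSeries i,
    (⊤ : Subgroup G).lowerCentralSeries j⁆ ≤ (⊤ : Subgroup G).lowerCentralSeries (i + j + 1) := by
  induction j with
  | zero =>
    intro i
    rfl
  | succ j ih =>
    intro i
    rw [Subgroup.commutator_comm, Subgroup.lowerCentralSeries_succ]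
    apply three
    · rw [Subgroup.commutator_comm ⊤, ← Subgroup.lowerCentralSeries_succ]
      refine (ih (i + 1)).trans (le_of_eq ?_)
      congr 1
      omega
    · have h1 := Subgroup.commutator_mono (ih i) (le_refl (⊤ : Subgroup G))
      rw [← Subgroup.lowerCentralSeries_succ] at h1
      refine h1.trans (le_of_eq ?_)
      congr 1

end

section

variable {K : Type u} [Group K]

theorem mem_lcs {i j : ℕ} {x y : K} (hx : x ∈ (⊤ : Subgroup K).lowerCentralSeries i)
    (hy : y ∈ (⊤ : Subgroup K).lowerCentralSeries j) :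
    ⁅x, y⁆ ∈ (⊤ : Subgroup K).lowerCentralSeries (i + j + 1) :=
  lcs_comm j i (Subgroup.commutator_mem_commutator hx hy)

theorem mem_lcs' (l i j : ℕ) (hl : l = i + j + 1) {x y : K}
    (hx : x ∈ (⊤ : Subgroup K).lowerCentralSeries i)
    (hy : y ∈ (⊤ : Subgroup K).lowerCentralSeries j) :
    ⁅x, y⁆ ∈ (⊤ : Subgroup K).lowerCentralSeries l := by
  rw [hl]
  exact mem_lcs hx hy

theorem io_D {A : Subgroup K} [A.Normal] [IsMulCommutative A] (g : K) (v : Additive A) :
    io (D g v) = ⁅g, io v⁆ := by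
  rw [D_apply, sub_eq_add_neg, io_add, io_ac, io_neg, commutatorElement_def]

theorem dvd_choose {n k : ℕ} (hk : 1 ≤ k) (h : Nat.Coprime n k) : n ∣ n.choose k := by
  rcases Nat.eq_zero_or_pos n with rfl | hn
  · have : k ≠ 0 := by omega
    rw [Nat.choose_eq_zero_of_lt (by omega)]
  · obtain ⟨m, rfl⟩ : ∃ m, n = m + 1 := ⟨n - 1, by omega⟩
    obtain ⟨l, rfl⟩ : ∃ l, k = l + 1 := ⟨k - 1, by omega⟩
    have h1 := Nat.add_one_mul_choose_eq m l
    exact h.dvd_of_dvd_mul_right (Dvd.intro _ h1)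

theorem comm_class_five (p : ℕ) (hp : p = 2 ∨ p = 3) (k : ℕ) (hk : p = 3 → 1 ≤ k)
    (hk' : p = 2 → 2 ≤ k) (hc : (⊤ : Subgroup K).lowerCentralSeries 5 = ⊥)
    (hn : ∀ x : K, x ^ p ^ (k + 1) = 1) (a b : K) : Commute (a ^ p ^ k) (b ^ p ^ k) := by
  have one : ∀ (j : ℕ) (x : K), 5 ≤ j → x ∈ (⊤ : Subgroup K).lowerCentralSeries j → x = 1 := by
    intro j x hj hx
    have h1 := Subgroup.lowerCentralSeries_antitone _ hj hx
    rw [hc] at h1
    exact Subgroup.mem_bot.1 h1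
  have t0 : ∀ g : K, g ∈ (⊤ : Subgroup K).lowerCentralSeries 0 := fun g => Subgroup.mem_top g
  obtain ⟨A, hA⟩ : ∃ A : Subgroup K, A = (⊤ : Subgroup K).lowerCentralSeries 2 := ⟨_, rfl⟩
  haveI hN : A.Normal := by rw [hA]; infer_instance
  haveI hcA : IsMulCommutative A := by
    refine IsMulCommutative.of_comm fun x y => ?_
    have hx : (x : K) ∈ (⊤ : Subgroup K).lowerCentralSeries 2 := by rw [← hA]; exact x.2
    have hy : (y : K) ∈ (⊤ : Subgroup K).lowerCentralSeries 2 := by rw [← hA]; exact y.2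
    have h1 := one 5 _ le_rfl (mem_lcs' 5 2 2 rfl hx hy)
    exact Subtype.ext (commutatorElement_eq_one_iff_mul_comm.1 h1)
  have hv : ∀ v : Additive A, io v ∈ (⊤ : Subgroup K).lowerCentralSeries 2 := by
    intro v
    rw [← hA]
    exact io_mem v
  have h3 : Three A := by
    intro g h k v
    rw [← io_eq_one, io_D, io_D, io_D]
    exact one 5 _ le_rfl (mem_lcs' 5 0 4 rfl (t0 g) (mem_lcs' 4 0 3 rfl (t0 h)
      (mem_lcs' 3 0 2 rfl (t0 k) (hv v))))
  have hU : ∀ x y : K, Two A ⁅x, y⁆ := by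
    intro x y
    have h1 := mem_lcs' 1 0 0 rfl (t0 x) (t0 y)
    refine ⟨fun g v => ?_, fun g v => ?_, fun g => ?_⟩
    · rw [← io_eq_one, io_D, io_D]
      exact one 5 _ le_rfl (mem_lcs' 5 1 3 rfl h1 (mem_lcs' 3 0 2 rfl (t0 g) (hv v)))
    · rw [← io_eq_one, io_D, io_D]
      exact one 5 _ le_rfl (mem_lcs' 5 0 4 rfl (t0 g) (mem_lcs' 4 1 2 rfl h1 (hv v)))
    · rw [hA]
      exact mem_lcs' 2 0 1 rfl (t0 g) h1
  rcases hp with rfl | rfl
  · obtain ⟨j, rfl⟩ : ∃ j, k = j + 2 := ⟨k - 2, by have := hk' rfl; omega⟩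
    have e1 : 2 ^ (j + 2 + 1) = 8 * 2 ^ j := by ring
    have e2 : 2 ^ (j + 2) = 4 * 2 ^ j := by ring
    rw [e1] at hn
    rw [e2]
    refine case_two h3 hU (2 ^ j) hn (dvd_choose (by norm_num) ?_) (dvd_choose (by norm_num) ?_) a b
    · rw [← e1]; exact Nat.Coprime.pow_left _ (by norm_num)
    · rw [← e2]; exact Nat.Coprime.pow_left _ (by norm_num)
  · obtain ⟨j, rfl⟩ : ∃ j, k = j + 1 := ⟨k - 1, by have := hk rfl; omega⟩
    have e1 : 3 ^ (j + 1 + 1) = 9 * 3 ^ j := by ring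
    have e2 : 3 ^ (j + 1) = 3 * 3 ^ j := by ring
    have c2 : ∀ m : ℕ, Nat.Coprime (3 ^ m) 2 := fun m => Nat.Coprime.pow_left _ (by norm_num)
    have c4 : ∀ m : ℕ, Nat.Coprime (3 ^ m) 4 := fun m => Nat.Coprime.pow_left _ (by norm_num)
    rw [e1] at hn
    rw [e2]
    refine case_three h3 hU (3 ^ j) hn (dvd_choose (by norm_num) ?_) ?_ (dvd_choose (by norm_num) ?_)
      (dvd_choose (by norm_num) ?_) (dvd_choose (by norm_num) ?_) a b
    · rw [← e1]; exact c2 _
    · set c := 3 ^ j with hcdef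
      have hc1 : 1 ≤ c := Nat.one_le_iff_ne_zero.2 (pow_ne_zero _ (by norm_num))
      obtain ⟨m, hm⟩ : ∃ m, 9 * c = m + 1 := ⟨9 * c - 1, by omega⟩
      have h1 := Nat.add_one_mul_choose_eq m 2
      rw [← hm] at h1
      have h2 := choose_two m
      have h4 : 3 ∣ m.choose 2 + 2 := by
        have h5 : 2 * (m.choose 2 + 2) = 3 * (27 * c * c - 9 * c + 2) := by
          have h6 : m = 9 * c - 1 := by omega
          have h7 : 9 * c ≤ 27 * c * c := by nlinarith
          zify [h7]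
          have h8 : (m : ℤ) = 9 * c - 1 := by omega
          have h9 : 2 * (m.choose 2 : ℤ) + m = m * m := by exact_mod_cast h2
          rw [h8] at h9
          linarith
        have h6 : 3 ∣ 2 * (m.choose 2 + 2) := Dvd.intro _ h5.symm
        exact (Nat.Coprime.dvd_mul_left (by norm_num)).1 h6
      obtain ⟨e, he⟩ := h4
      have he1 : 1 ≤ e := by omega
      refine ⟨e - 1, ?_⟩
      obtain ⟨f, rfl⟩ : ∃ f, e = f + 1 := ⟨e - 1, by omega⟩
      have h5 : m.choose 2 = 3 * f + 1 := by omega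
      rw [h5] at h1
      simp only [Nat.add_sub_cancel]
      simp only [Nat.reduceAdd] at h1
      nlinarith
    · rw [← e1]; exact c4 _
    · rw [← e2]; exact c2 _
    · rw [← e2]; exact c4 _

end

end Pool.Agent.W5h53.BC
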