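import Mathlib
import Pool.Agent.W5h53.BC.Rad
import Pool.Agent.H32BU.All

set_option autoImplicit false
set_option linter.all false

/-!
# Groups of exponent `2 ^ k` or `3 ^ k` in which conjugate elements generate subgroups of class at
# most five
-/

open scoped commutatorElement

namespace Pool.Agent.W5h53.BC

universe u v

/-- two conjugate elements generate a subgroup of class at most five -/
def Five (G : Type u) [Group G] : Prop :=
  ∀ x y : G, (Subgroup.closure {x, y * x * y⁻¹}).lowerCentralSeries 5 = ⊥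

theorem pair_map {G : Type u} {H : Type v} [Group G] [Group H] (f : G →* H) (x y : G) :
    (Subgroup.closure {x, y}).map f = Subgroup.closure {f x, f y} := by
  rw [MonoidHom.map_closure, Set.image_pair]

theorem five_map {G : Type u} {H : Type v} [Group G] [Group H] (f : G →* H) {x y : G}
    (h : (Subgroup.closure {x, y * x * y⁻¹}).lowerCentralSeries 5 = ⊥) :
    (Subgroup.closure {f x, f y * f x * (f y)⁻¹}).lowerCentralSeries 5 = ⊥ := by
  have h1 := congrArg (Subgroup.map f) h
  rw [Subgroup.map_lowerCentralSeries, pair_map, Subgroup.map_bot, map_mul, map_mul, map_inv] at h1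
  exact h1

theorem five_comap {G : Type u} {H : Type v} [Group G] [Group H] (f : G →* H)
    (hf : Function.Injective f) {x y : G}
    (h : (Subgroup.closure {f x, f y * f x * (f y)⁻¹}).lowerCentralSeries 5 = ⊥) :
    (Subgroup.closure {x, y * x * y⁻¹}).lowerCentralSeries 5 = ⊥ := by
  have h1 : ((Subgroup.closure {x, y * x * y⁻¹}).lowerCentralSeries 5).map f = ⊥ := by
    rw [Subgroup.map_lowerCentralSeries, pair_map, map_mul, map_mul, map_inv]
    exact h
  rwa [Subgroup.map_eq_bot_iff_of_injective _ hf] at h1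

theorem Five.quot {G : Type u} [Group G] (h : Five G) (N : Subgroup G) [N.Normal] :
    Five (G ⧸ N) := by
  intro x y
  obtain ⟨x, rfl⟩ := QuotientGroup.mk'_surjective _ x
  obtain ⟨y, rfl⟩ := QuotientGroup.mk'_surjective _ y
  exact five_map (QuotientGroup.mk' N) (h x y)

theorem pow_mem_rad {p : ℕ} (hp : p = 2 ∨ p = 3) {k : ℕ} (hk : p = 3 → 1 ≤ k)
    (hk' : p = 2 → 2 ≤ k) {G : Type u} [Group G] (hG : ∀ x : G, x ^ p ^ (k + 1) = 1)
    (h : Five G) (x : G) : x ^ p ^ k ∈ rad G := by
  have hp0 : p ≠ 0 := by rcases hp with rfl | rfl <;> norm_num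
  refine mem_rad (pow_ne_zero (k + 1) hp0) hG _ fun y => ?_
  rw [← conj_pow]
  obtain ⟨K, hK⟩ : ∃ K : Subgroup G, K = Subgroup.closure {x, y * x * y⁻¹} := ⟨_, rfl⟩
  have hx : x ∈ K := by rw [hK]; exact Subgroup.subset_closure (by simp)
  have hy : y * x * y⁻¹ ∈ K := by rw [hK]; exact Subgroup.subset_closure (by simp)
  have hc : (⊤ : Subgroup K).lowerCentralSeries 5 = ⊥ := by
    have h1 := h x y
    rw [← hK, ← Subgroup.top_subtype_lowerCentralSeries] at h1
    rwa [Subgroup.map_eq_bot_iff_of_injective _ K.subtype_injective] at h1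
  have h1 := comm_class_five p hp k hk hk' hc (fun z => Subtype.ext (hG z)) ⟨x, hx⟩
    ⟨y * x * y⁻¹, hy⟩
  exact h1.map K.subtype

theorem exp_quot {G : Type u} [Group G] {n : ℕ} (N : Subgroup G) [N.Normal]
    (h : ∀ x : G, x ^ n ∈ N) (x : G ⧸ N) : x ^ n = 1 := by
  obtain ⟨x, rfl⟩ := QuotientGroup.mk'_surjective _ x
  rw [← map_pow]
  exact (QuotientGroup.eq_one_iff _).2 (h x)

theorem lf3 (G : Type u) [Group G] (h : ∀ x : G, x ^ 3 = 1) : LFn G :=
  (Pool.Agent.H32BU.inL_iff Pool.Agent.H32BU.x_LFD 3).2 Pool.Agent.H32BU.x_L34.1 G h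

theorem lf4 (G : Type u) [Group G] (h : ∀ x : G, x ^ 4 = 1) : LFn G :=
  (Pool.Agent.H32BU.inL_iff Pool.Agent.H32BU.x_LFD 4).2 Pool.Agent.H32BU.x_L34.2 G h

theorem lf_pp (p : ℕ) (hp : p = 2 ∨ p = 3) (k : ℕ) : ∀ (G : Type u) [Group G],
    (∀ x : G, x ^ p ^ k = 1) → Five G → LFn G := by
  induction k with
  | zero =>
    intro G _ hG _
    exact lf3 G fun x => by
      have := hG x
      rw [pow_zero, pow_one] at this
      rw [this, one_pow]
  | succ k ih =>
    intro G _ hG hF
    by_cases h1 : p = 3 ∧ k = 0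
    · obtain ⟨rfl, rfl⟩ := h1
      exact lf3 G (by simpa using hG)
    · by_cases h2 : p = 2 ∧ k ≤ 1
      · obtain ⟨rfl, h2⟩ := h2
        refine lf4 G fun x => ?_
        have h3 : 2 ^ (k + 1) ∣ 4 := (pow_dvd_pow 2 (by omega : k + 1 ≤ 2))
        obtain ⟨c, hc⟩ := h3
        rw [hc, pow_mul, hG, one_pow]
      · have hk : p = 3 → 1 ≤ k := fun h => by
          by_contra h4
          exact h1 ⟨h, by omega⟩
        have hk' : p = 2 → 2 ≤ k := fun h => by
          by_contra h4
          exact h2 ⟨h, by omega⟩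
        exact lf_of_rad (ih _ (exp_quot _ (pow_mem_rad hp hk hk' hG hF)) (hF.quot _))

theorem comm_le {H : Type u} [Group H] (N : Subgroup H) [N.Normal] (x y : H)
    (h1 : ⁅⁅y, x⁆, x⁆ ∈ N) :
    ⁅Subgroup.closure {x, y * x * y⁻¹}, Subgroup.closure {x, y * x * y⁻¹}⁆ ≤ N := by
  have h0 : ∀ X : Subgroup H, X ≤ N ↔ X.map (QuotientGroup.mk' N) = ⊥ := by
    intro X
    rw [Subgroup.map_eq_bot_iff, QuotientGroup.ker_mk']
  rw [h0, Subgroup.map_commutator, pair_map]
  obtain ⟨a, ha⟩ : ∃ a, a = QuotientGroup.mk' N x := ⟨_, rfl⟩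
  obtain ⟨b, hb⟩ : ∃ b, b = QuotientGroup.mk' N (y * x * y⁻¹) := ⟨_, rfl⟩
  rw [← ha, ← hb]
  have hab : a * b = b * a := by
    have h2 : QuotientGroup.mk' N ⁅⁅y, x⁆, x⁆ = 1 := (QuotientGroup.eq_one_iff _).2 h1
    have h3 : x * (y * x * y⁻¹) = (⁅⁅y, x⁆, x⁆)⁻¹ * ((y * x * y⁻¹) * x) := by
      rw [commutatorElement_def ⁅y, x⁆, commutatorElement_def y]; group
    rw [ha, hb, ← map_mul, ← map_mul, h3, map_mul, map_inv, h2, inv_one, one_mul]
  rw [Subgroup.commutator_eq_bot_iff_le_centralizer, Subgroup.closure_le]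
  intro z hz
  rw [SetLike.mem_coe, Subgroup.mem_centralizer_iff]
  intro w hw
  have h5 : Subgroup.closure {a, b} ≤ Subgroup.centralizer {z} := by
    rw [Subgroup.closure_le]
    intro t ht
    rw [SetLike.mem_coe, Subgroup.mem_centralizer_singleton_iff]
    rcases hz with rfl | hz
    · rcases ht with rfl | ht
      · rfl
      · rw [Set.mem_singleton_iff] at ht
        rw [ht]; exact hab.symm
    · rw [Set.mem_singleton_iff] at hz
      rcases ht with rfl | ht
      · rw [hz]; exact hab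
      · rw [Set.mem_singleton_iff] at ht
        rw [ht, hz]
  exact Subgroup.mem_centralizer_singleton_iff.1 (h5 hw)

theorem lcs_conj {H : Type u} [Group H] (x y : H) (i : ℕ) :
    (Subgroup.closure {x, y * x * y⁻¹}).lowerCentralSeries (i + 1) ≤
      (⊤ : Subgroup H).lowerCentralSeries (i + 2) := by
  induction i with
  | zero =>
    rw [Subgroup.lowerCentralSeries_succ, Subgroup.lowerCentralSeries_zero]
    refine comm_le ((⊤ : Subgroup H).lowerCentralSeries 2) x y ?_
    exact mem_lcs' 2 1 0 rfl (mem_lcs' 1 0 0 rfl (Subgroup.mem_top y) (Subgroup.mem_top x))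
      (Subgroup.mem_top x)
  | succ i ih =>
    rw [Subgroup.lowerCentralSeries_succ]
    conv_rhs => rw [show i + 1 + 2 = (i + 2) + 1 from rfl, Subgroup.lowerCentralSeries_succ]
    exact Subgroup.commutator_mono ih le_top

theorem lcs_conj' {H : Type u} [Group H] (x y : H) (i m l : ℕ) (hm : m = i + 1) (hl : l = i + 2)
    (h : (⊤ : Subgroup H).lowerCentralSeries l = ⊥) :
    (Subgroup.closure {x, y * x * y⁻¹}).lowerCentralSeries m = ⊥ := by
  rw [hl] at h
  rw [hm, eq_bot_iff, ← h]
  exact lcs_conj x y i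

/-- two-generator subgroups of class at most six -/
theorem five_of_six {G : Type u} [Group G] {x y : G}
    (h : (Subgroup.closure {x, y}).lowerCentralSeries 6 = ⊥) :
    (Subgroup.closure {x, y * x * y⁻¹}).lowerCentralSeries 5 = ⊥ := by
  obtain ⟨H, hH⟩ : ∃ H : Subgroup G, H = Subgroup.closure {x, y} := ⟨_, rfl⟩
  have hx : x ∈ H := by rw [hH]; exact Subgroup.subset_closure (by simp)
  have hy : y ∈ H := by rw [hH]; exact Subgroup.subset_closure (by simp)
  have hc : (⊤ : Subgroup H).lowerCentralSeries 6 = ⊥ := by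
    rw [← hH, ← Subgroup.top_subtype_lowerCentralSeries] at h
    rwa [Subgroup.map_eq_bot_iff_of_injective _ H.subtype_injective] at h
  have h1 := lcs_conj' (⟨x, hx⟩ : H) ⟨y, hy⟩ 4 5 6 rfl rfl hc
  have h2 := five_map H.subtype h1
  rw [Subgroup.subtype_apply, Subgroup.subtype_apply] at h2
  exact h2

end Pool.Agent.W5h53.BC
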