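import Mathlib
import Pool.Agent.W5h53.BC.Red

set_option autoImplicit false
set_option linter.all false

/-!
# The general reduction
-/

open scoped commutatorElement

namespace Pool.Agent.W5h53.BC

universe u v

/-- the condition on the two-generator subgroups of prime power order -/
def Loc (G : Type u) [Group G] : Prop :=
  ∀ p : ℕ, p.Prime → ∀ x y : G, IsPGroup p (Subgroup.closure {x, y}) →
    (p ≤ 3 → (Subgroup.closure {x, y * x * y⁻¹}).lowerCentralSeries 5 = ⊥) ∧
    (3 < p → Commute x (y * x * y⁻¹))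

theorem Loc.quot {G : Type u} [Group G] (hfin : ∀ x y : G, Finite (Subgroup.closure {x, y}))
    (h : Loc G) (N : Subgroup G) [N.Normal] : Loc (G ⧸ N) := by
  intro p hp x' y' hP
  haveI : Fact p.Prime := ⟨hp⟩
  obtain ⟨x, rfl⟩ := QuotientGroup.mk'_surjective _ x'
  obtain ⟨y, rfl⟩ := QuotientGroup.mk'_surjective _ y'
  obtain ⟨F, hF⟩ : ∃ F : Subgroup G, F = Subgroup.closure {x, y} := ⟨_, rfl⟩
  obtain ⟨E, hE⟩ : ∃ E : Subgroup (G ⧸ N), E = Subgroup.closure {QuotientGroup.mk' N x,
    QuotientGroup.mk' N y} := ⟨_, rfl⟩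
  have hmap : F.map (QuotientGroup.mk' N) = E := by rw [hF, hE, pair_map]
  rw [← hE] at hP
  haveI : Finite F := by rw [hF]; exact hfin x y
  obtain ⟨f, hf⟩ : ∃ f : F →* E, ∀ z : F, ((f z : E) : G ⧸ N) = QuotientGroup.mk' N (z : G) :=
    ⟨{ toFun := fun z => ⟨QuotientGroup.mk' N (z : G), by
          rw [← hmap]; exact Subgroup.mem_map_of_mem _ z.2⟩
       map_one' := rfl
       map_mul' := fun _ _ => rfl }, fun _ => rfl⟩
  have hfs : Function.Surjective f := by
    intro e
    have h1 : (e : G ⧸ N) ∈ F.map (QuotientGroup.mk' N) := by rw [hmap]; exact e.2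
    obtain ⟨z, hz, hz'⟩ := h1
    exact ⟨⟨z, hz⟩, Subtype.ext ((hf _).trans hz')⟩
  obtain ⟨P⟩ : Nonempty (Sylow p F) := inferInstance
  have h1 := (P.mapSurjective hfs).is_maximal' (hP.to_subgroup ⊤) le_top
  have h2 : ∀ e : E, ∃ z : F, z ∈ (P : Subgroup F) ∧ f z = e := by
    intro e
    have h3 : e ∈ ((P.mapSurjective hfs : Sylow p E) : Subgroup E) := by
      rw [← h1]; trivial
    rw [Sylow.coe_mapSurjective] at h3
    exact h3
  have hxE : QuotientGroup.mk' N x ∈ E := by rw [hE]; exact Subgroup.subset_closure (by simp)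
  have hyE : QuotientGroup.mk' N y ∈ E := by rw [hE]; exact Subgroup.subset_closure (by simp)
  obtain ⟨a, ha, ha'⟩ := h2 ⟨_, hxE⟩
  obtain ⟨b, hb, hb'⟩ := h2 ⟨_, hyE⟩
  have ha2 : QuotientGroup.mk' N (a : G) = QuotientGroup.mk' N x := by rw [← hf, ha']
  have hb2 : QuotientGroup.mk' N (b : G) = QuotientGroup.mk' N y := by rw [← hf, hb']
  have hPG : IsPGroup p (Subgroup.closure {(a : G), (b : G)}) := by
    have h3 : Subgroup.closure {(a : G), (b : G)} ≤ (P : Subgroup F).map F.subtype := by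
      rw [Subgroup.closure_le]
      rintro z (rfl | hz)
      · exact ⟨a, ha, rfl⟩
      · rw [Set.mem_singleton_iff] at hz
        rw [hz]
        exact ⟨b, hb, rfl⟩
    exact (P.2.map F.subtype).to_le h3
  have h3 := h p hp a b hPG
  refine ⟨fun hp3 => ?_, fun hp3 => ?_⟩
  · have h4 := five_map (QuotientGroup.mk' N) (h3.1 hp3)
    rwa [ha2, hb2] at h4
  · have h4 := (h3.2 hp3).map (QuotientGroup.mk' N)
    rwa [map_mul, map_mul, map_inv, ha2, hb2] at h4

theorem lf_normal {Q : Type u} [Group Q] (h : Loc Q) (N : Subgroup Q) {p k : ℕ} (hp : p.Prime)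
    (hN : ∀ x ∈ N, x ^ p ^ k = 1) : LFn N := by
  have hP : ∀ x y : N, IsPGroup p (Subgroup.closure {(x : Q), (y : Q)}) := by
    intro x y g
    refine ⟨k, Subtype.ext (hN g ?_)⟩
    have h1 : Subgroup.closure {(x : Q), (y : Q)} ≤ N := by
      rw [Subgroup.closure_le]
      rintro z (rfl | hz)
      · exact x.2
      · rw [Set.mem_singleton_iff] at hz
        rw [hz]; exact y.2
    exact h1 g.2
  by_cases hp3 : p ≤ 3
  · have h23 : p = 2 ∨ p = 3 := by
      have := hp.two_le
      omega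
    refine lf_pp p h23 k N (fun x => Subtype.ext (hN x x.2)) ?_
    intro x y
    refine five_comap N.subtype N.subtype_injective ?_
    rw [Subgroup.subtype_apply, Subgroup.subtype_apply]
    exact (h p hp x y (hP x y)).1 hp3
  · have h1 : rad N = ⊤ := by
      rw [eq_top_iff]
      intro x _
      refine mem_rad (n := p ^ k) (pow_ne_zero k hp.ne_zero) (fun x => Subtype.ext (hN x x.2)) x
        fun y => ?_
      have h2 := (h p hp x y (hP x y)).2 (by omega)
      exact Subtype.ext h2.eq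
    have h2 := rad_lf N
    rw [h1] at h2
    exact LFn.image (Subgroup.topEquiv (G := N)).toMonoidHom (Subgroup.topEquiv (G := N)).surjective h2

/-- the principle -/
theorem lf_gen (V : (G : Type u) → [Group G] → Prop)
    (hVq : ∀ (G : Type u) [Group G] (N : Subgroup G) [N.Normal], V G → V (G ⧸ N))
    (hV : ∀ (G : Type u) [Group G], V G → Nontrivial G → ∃ p k : ℕ, p.Prime ∧
      ∃ N : Subgroup G, N.Normal ∧ N ≠ ⊥ ∧ ∀ x ∈ N, x ^ p ^ k = 1)
    (G : Type u) [Group G] (hfin : ∀ x y : G, Finite (Subgroup.closure {x, y})) (hG : V G)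
    (hL : Loc G) : LFn G := by
  refine lf_of_rad ?_
  by_cases hnt : Nontrivial (G ⧸ rad G)
  · exfalso
    obtain ⟨p, k, hp, N, hN, hN', h1⟩ := hV _ (hVq _ (rad G) hG) hnt
    have h2 := lf_normal (hL.quot hfin (rad G)) N hp h1
    have h3 := le_rad hN h2
    rw [rad_quot, le_bot_iff] at h3
    exact hN' h3
  · rw [not_nontrivial_iff_subsingleton] at hnt
    intro S hS
    infer_instance

end Pool.Agent.W5h53.BC
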