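import Mathlib
import Pool.Agent.W5h53.BC.Gen

set_option autoImplicit false
set_option linter.all false

/-!
# Chains of words for the exponents `2 ^ k` and `3 ^ k`
-/

open scoped commutatorElement

namespace Pool.Agent.W5h53.BC

universe u v

/-- the words `w₀ = x ^ m`, `w_(j+1) = [w_j, y w_j y⁻¹]` -/
def w {G : Type u} [Group G] (m : ℕ) (x : G) : List G → G
  | [] => x ^ m
  | y :: l => ⁅w m x l, y * w m x l * y⁻¹⁆

theorem w_map {G : Type u} {H : Type v} [Group G] [Group H] (f : G →* H) (m : ℕ) (x : G)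
    (l : List G) : f (w m x l) = w m (f x) (l.map f) := by
  induction l with
  | nil => exact map_pow f x m
  | cons y l ih =>
    show f ⁅w m x l, y * w m x l * y⁻¹⁆ = ⁅w m (f x) (l.map f), f y * w m (f x) (l.map f) * (f y)⁻¹⁆
    rw [map_commutatorElement, map_mul, map_mul, map_inv, ih]

/-- one step of the chain -/
theorem law_step {Q : Type u} [Group Q] {n : ℕ} (hn : n ≠ 0) (hQ : ∀ x : Q, x ^ n = 1)
    (hr : rad Q = ⊥) {m j : ℕ} (h : ∀ (x : Q) (l : List Q), l.length = j + 1 → w m x l = 1) :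
    ∀ (x : Q) (l : List Q), l.length = j → w m x l = 1 := by
  intro x l hl
  have h1 : w m x l ∈ rad Q := by
    refine mem_rad hn hQ _ fun y => ?_
    have h2 := h x (y :: l) (by simp [hl])
    exact commutatorElement_eq_one_iff_commute.1 h2
  rw [hr] at h1
  exact Subgroup.mem_bot.1 h1

theorem law_pow {Q : Type u} [Group Q] {n : ℕ} (hn : n ≠ 0) (hQ : ∀ x : Q, x ^ n = 1)
    (hr : rad Q = ⊥) {m : ℕ} (j : ℕ) (h : ∀ (x : Q) (l : List Q), l.length = j → w m x l = 1)
    (x : Q) : x ^ m = 1 := by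
  induction j with
  | zero => exact h x [] rfl
  | succ j ih => exact ih (law_step hn hQ hr h)

/-- the derived series of a subgroup -/
def ds {G : Type u} [Group G] (H : Subgroup G) : ℕ → Subgroup G
  | 0 => H
  | n + 1 => ⁅ds H n, ds H n⁆

theorem ds_map {G : Type u} {H : Type v} [Group G] [Group H] (f : G →* H) (A : Subgroup G)
    (n : ℕ) : (ds A n).map f = ds (A.map f) n := by
  induction n with
  | zero => rfl
  | succ n ih =>
    show (⁅ds A n, ds A n⁆).map f = ⁅ds (A.map f) n, ds (A.map f) n⁆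
    rw [Subgroup.map_commutator, ih]

theorem ds_normal {G : Type u} [Group G] (A : Subgroup G) [hA : A.Normal] (n : ℕ) :
    (ds A n).Normal := by
  induction n with
  | zero => exact hA
  | succ n ih =>
    haveI := ih
    show (⁅ds A n, ds A n⁆).Normal
    infer_instance

/-- the derived series of a group -/
theorem ds_eq {G : Type u} [Group G] (H : Subgroup G) (n : ℕ) :
    (derivedSeries H n).map H.subtype = ds H n := by
  induction n with
  | zero =>
    show (⊤ : Subgroup H).map H.subtype = H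
    rw [← MonoidHom.range_eq_map, Subgroup.range_subtype]
  | succ n ih =>
    rw [derivedSeries_succ, Subgroup.map_commutator, ih]
    rfl

/-- conjugates of `x ^ q` commute in class at most six -/
theorem comm_conj {K : Type u} [Group K] {p : ℕ} (hp : p = 2 ∨ p = 3) {k : ℕ} (hk : p = 3 → 1 ≤ k)
    (hk' : p = 2 → 2 ≤ k) (hK : ∀ x : K, x ^ p ^ (k + 1) = 1)
    (hc : (⊤ : Subgroup K).lowerCentralSeries 6 = ⊥) (x y : K) :
    Commute (x ^ p ^ k) (y * x ^ p ^ k * y⁻¹) := by
  have h6 : (Subgroup.closure {x, y * x * y⁻¹}).lowerCentralSeries 5 = ⊥ :=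
    lcs_conj' x y 4 5 6 rfl rfl hc
  obtain ⟨H, hH⟩ : ∃ H : Subgroup K, H = Subgroup.closure {x, y * x * y⁻¹} := ⟨_, rfl⟩
  have hx : x ∈ H := by rw [hH]; exact Subgroup.subset_closure (by simp)
  have hy : y * x * y⁻¹ ∈ H := by rw [hH]; exact Subgroup.subset_closure (by simp)
  have hc' : (⊤ : Subgroup H).lowerCentralSeries 5 = ⊥ := by
    rw [← hH, ← Subgroup.top_subtype_lowerCentralSeries] at h6
    rwa [Subgroup.map_eq_bot_iff_of_injective _ H.subtype_injective] at h6
  have h1 := comm_class_five p hp k hk hk' hc' (fun z => Subtype.ext (hK z)) ⟨x, hx⟩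
    ⟨y * x * y⁻¹, hy⟩
  have h2 := h1.map H.subtype
  rw [map_pow, map_pow, Subgroup.subtype_apply, Subgroup.subtype_apply] at h2
  rwa [← conj_pow]

/-- the first word lies in the seventh term of the lower central series -/
theorem base_mem {K : Type u} [Group K] {p : ℕ} (hp : p = 2 ∨ p = 3) {k : ℕ} (hk : p = 3 → 1 ≤ k)
    (hk' : p = 2 → 2 ≤ k) (hK : ∀ x : K, x ^ p ^ (k + 1) = 1) (x y : K) :
    ⁅x ^ p ^ k, y * x ^ p ^ k * y⁻¹⁆ ∈ (⊤ : Subgroup K).lowerCentralSeries 6 := by
  obtain ⟨N, hN⟩ : ∃ N : Subgroup K, N = (⊤ : Subgroup K).lowerCentralSeries 6 := ⟨_, rfl⟩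
  rw [← hN]
  haveI : N.Normal := by rw [hN]; infer_instance
  have hc : (⊤ : Subgroup (K ⧸ N)).lowerCentralSeries 6 = ⊥ := by
    have h1 := Subgroup.map_lowerCentralSeries (S := (⊤ : Subgroup K)) (QuotientGroup.mk' N) 6
    rw [Subgroup.map_top_of_surjective _ (QuotientGroup.mk'_surjective N), ← hN] at h1
    rw [← h1, Subgroup.map_eq_bot_iff, QuotientGroup.ker_mk']
  have h1 := comm_conj hp hk hk' (exp_quot N fun z => by rw [hK]; exact one_mem _) hc
    (QuotientGroup.mk' N x) (QuotientGroup.mk' N y)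
  rw [← commutatorElement_eq_one_iff_commute, ← map_pow, ← map_inv, ← map_mul, ← map_mul,
    ← map_commutatorElement] at h1
  exact (QuotientGroup.eq_one_iff _).1 h1

theorem conj_step {K : Type u} [Group K] {i j : ℕ} (hj : j = 2 * i + 2) {v : K}
    (hv : v ∈ (⊤ : Subgroup K).lowerCentralSeries i) (y : K) :
    ⁅v, y * v * y⁻¹⁆ ∈ (⊤ : Subgroup K).lowerCentralSeries j := by
  have h1 : ⁅v, y * v * y⁻¹⁆ = ⁅v, ⁅y, v⁆⁆ := by
    simp only [commutatorElement_def]
    group
  rw [h1]
  exact mem_lcs' j i (i + 1) (by omega) hv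
    (mem_lcs' (i + 1) 0 i (by omega) (Subgroup.mem_top y) hv)

theorem w_lcs {K : Type u} [Group K] {p : ℕ} (hp : p = 2 ∨ p = 3) {k : ℕ} (hk : p = 3 → 1 ≤ k)
    (hk' : p = 2 → 2 ≤ k) (hK : ∀ x : K, x ^ p ^ (k + 1) = 1) (x : K) (l : List K) (hl : l ≠ []) :
    w (p ^ k) x l ∈ (⊤ : Subgroup K).lowerCentralSeries (2 ^ (l.length + 2) - 2) := by
  induction l with
  | nil => exact absurd rfl hl
  | cons y l ih =>
    by_cases h : l = []
    · subst h
      exact base_mem hp hk hk' hK x y
    · refine conj_step ?_ (ih h) y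
      have h1 : 4 ≤ 2 ^ (l.length + 2) := by
        calc 4 = 2 ^ 2 := by norm_num
          _ ≤ 2 ^ (l.length + 2) := Nat.pow_le_pow_right (by norm_num) (by omega)
      have h2 : 2 ^ ((y :: l).length + 2) = 2 * 2 ^ (l.length + 2) := by
        rw [List.length_cons]; ring
      omega

theorem w_ds {K : Type u} [Group K] {p : ℕ} (hp : p = 2 ∨ p = 3) {k : ℕ} (hk : p = 3 → 1 ≤ k)
    (hk' : p = 2 → 2 ≤ k) (hK : ∀ x : K, x ^ p ^ (k + 1) = 1) (x : K) (l : List K) (hl : l ≠ []) :
    w (p ^ k) x l ∈ ds ((⊤ : Subgroup K).lowerCentralSeries 6) (l.length - 1) := by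
  induction l with
  | nil => exact absurd rfl hl
  | cons y l ih =>
    by_cases h : l = []
    · subst h
      exact base_mem hp hk hk' hK x y
    · have h1 := ih h
      obtain ⟨j, hj⟩ : ∃ j, l.length = j + 1 := ⟨l.length - 1, by
        have := List.length_pos_iff.2 h
        omega⟩
      rw [List.length_cons, hj]
      rw [hj, Nat.add_sub_cancel] at h1
      have h2 := (ds_normal ((⊤ : Subgroup K).lowerCentralSeries 6) j).conj_mem _ h1 y
      exact Subgroup.commutator_mem_commutator h1 h2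

/-- the condition on a subgroup generated by `r` elements -/
def Sm (r : ℕ) {G : Type u} [Group G] (H : Subgroup G) : Prop :=
  H.lowerCentralSeries (2 ^ (r + 1) - 2) = ⊥ ∨ ds (H.lowerCentralSeries 6) (r - 2) = ⊥

theorem Sm.map {r : ℕ} {G : Type u} {G' : Type v} [Group G] [Group G'] (f : G →* G')
    {H : Subgroup G} (h : Sm r H) : Sm r (H.map f) := by
  refine h.imp (fun h1 => ?_) fun h1 => ?_
  · rw [← Subgroup.map_lowerCentralSeries, h1, Subgroup.map_bot]
  · rw [← Subgroup.map_lowerCentralSeries, ← ds_map, h1, Subgroup.map_bot]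

theorem Sm.of_map {r : ℕ} {G : Type u} {G' : Type v} [Group G] [Group G'] (f : G →* G')
    (hf : Function.Injective f) {H : Subgroup G} (h : Sm r (H.map f)) : Sm r H := by
  refine h.imp (fun h1 => ?_) fun h1 => ?_
  · rwa [← Subgroup.map_lowerCentralSeries, Subgroup.map_eq_bot_iff_of_injective _ hf] at h1
  · rwa [← Subgroup.map_lowerCentralSeries, ← ds_map, Subgroup.map_eq_bot_iff_of_injective _ hf] at h1

/-- the subgroup generated by a list -/
def gn {G : Type u} [Group G] (L : List G) : Subgroup G := Subgroup.closure {z | z ∈ L}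

theorem gn_map {G : Type u} {G' : Type v} [Group G] [Group G'] (f : G →* G') (L : List G) :
    (gn L).map f = gn (L.map f) := by
  unfold gn
  rw [MonoidHom.map_closure]
  congr 1
  ext z
  simp

theorem law_of_sm {G : Type u} [Group G] {p : ℕ} (hp : p = 2 ∨ p = 3) {k : ℕ} (hk : p = 3 → 1 ≤ k)
    (hk' : p = 2 → 2 ≤ k) (hG : ∀ x : G, x ^ p ^ (k + 1) = 1) (x : G) (l : List G) (hl : l ≠ [])
    (h : Sm (l.length + 1) (gn (x :: l))) : w (p ^ k) x l = 1 := by
  obtain ⟨H, hH⟩ : ∃ H : Subgroup G, H = gn (x :: l) := ⟨_, rfl⟩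
  have hx : x ∈ H := by rw [hH]; exact Subgroup.subset_closure (by simp)
  have hl' : ∀ z ∈ l, z ∈ H := fun z hz => by
    rw [hH]; exact Subgroup.subset_closure (by simp [hz])
  obtain ⟨l', rfl⟩ : ∃ l' : List H, l = l'.map H.subtype :=
    ⟨l.pmap (fun z hz => ⟨z, hz⟩) hl', by
      rw [List.map_pmap]
      simp⟩
  rw [← hH] at h
  obtain ⟨x', rfl⟩ : ∃ x' : H, x = H.subtype x' := ⟨⟨x, hx⟩, rfl⟩
  rw [← w_map]
  have hHe : ∀ z : H, z ^ p ^ (k + 1) = 1 := fun z => Subtype.ext (hG z)
  have hl2 : l' ≠ [] := fun h => hl (by rw [h]; rfl)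
  have e : w (p ^ k) x' l' = 1 := by
    rw [List.length_map] at h
    rcases h with h | h
    · rw [← Subgroup.top_subtype_lowerCentralSeries,
        Subgroup.map_eq_bot_iff_of_injective _ H.subtype_injective] at h
      have h1 := w_lcs hp hk hk' hHe x' l' hl2
      rw [show l'.length + 2 = l'.length + 1 + 1 from rfl, h] at h1
      exact Subgroup.mem_bot.1 h1
    · rw [← Subgroup.top_subtype_lowerCentralSeries, ← ds_map,
        Subgroup.map_eq_bot_iff_of_injective _ H.subtype_injective] at h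
      have h1 := w_ds hp hk hk' hHe x' l' hl2
      rw [show l'.length + 1 - 2 = l'.length - 1 by omega] at h
      rw [h] at h1
      exact Subgroup.mem_bot.1 h1
  rw [e, map_one]

/-- the exponents `2 ^ k` and `3 ^ k` -/
theorem lf_pp_gen (p : ℕ) (hp : p = 2 ∨ p = 3) (r : ℕ) (hr : 2 ≤ r) (k : ℕ) :
    ∀ (G : Type u) [Group G], (∀ x : G, x ^ p ^ k = 1) →
    (∀ L : List G, L.length = r → Sm r (gn L)) → LFn G := by
  have hp0 : p ≠ 0 := by rcases hp with rfl | rfl <;> norm_num
  induction k with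
  | zero =>
    intro G _ hG _
    exact lf3 G fun x => by
      have := hG x
      rw [pow_zero, pow_one] at this
      rw [this, one_pow]
  | succ k ih =>
    intro G _ hG hF
    by_cases h1 : p = 3 ∧ k = 0
    · obtain ⟨rfl, rfl⟩ := h1
      exact lf3 G (by simpa using hG)
    · by_cases h2 : p = 2 ∧ k ≤ 1
      · obtain ⟨rfl, h2⟩ := h2
        refine lf4 G fun x => ?_
        have h3 : 2 ^ (k + 1) ∣ 4 := (pow_dvd_pow 2 (by omega : k + 1 ≤ 2))
        obtain ⟨c, hc⟩ := h3
        rw [hc, pow_mul, hG, one_pow]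
      · have hk : p = 3 → 1 ≤ k := fun h => by
          by_contra h4
          exact h1 ⟨h, by omega⟩
        have hk' : p = 2 → 2 ≤ k := fun h => by
          by_contra h4
          exact h2 ⟨h, by omega⟩
        have hq : ∀ L : List (G ⧸ rad G), L.length = r → Sm r (gn L) := by
          intro L hL
          obtain ⟨L', rfl⟩ : ∃ L' : List G, L = L'.map (QuotientGroup.mk' (rad G)) := by
            obtain ⟨L', h⟩ := List.map_surjective_iff.2 (QuotientGroup.mk'_surjective (rad G)) L
            exact ⟨L', h.symm⟩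
          rw [← gn_map]
          exact (hF L' (by simpa using hL)).map _
        have he : ∀ x : G ⧸ rad G, x ^ p ^ (k + 1) = 1 :=
          exp_quot _ fun x => by rw [hG]; exact one_mem _
        refine lf_of_rad (ih _ ?_ hq)
        refine law_pow (pow_ne_zero (k + 1) hp0) he (rad_quot G) (r - 1) ?_
        intro x l hl
        refine law_of_sm hp hk hk' he x l ?_ ?_
        · rintro rfl
          simp at hl
          omega
        · rw [hl, show r - 1 + 1 = r by omega]
          exact hq _ (by simp [hl]; omega)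

/-- the general condition on a subgroup generated by `r` elements -/
def Sm0 (r : ℕ) {G : Type u} [Group G] (H : Subgroup G) : Prop :=
  H.lowerCentralSeries (2 ^ r - 2) = ⊥ ∨ ds H (r - 1) = ⊥

theorem Sm0.map {r : ℕ} {G : Type u} {G' : Type v} [Group G] [Group G'] (f : G →* G')
    {H : Subgroup G} (h : Sm0 r H) : Sm0 r (H.map f) := by
  refine h.imp (fun h1 => ?_) fun h1 => ?_
  · rw [← Subgroup.map_lowerCentralSeries, h1, Subgroup.map_bot]
  · rw [← ds_map, h1, Subgroup.map_bot]

theorem Sm0.of_map {r : ℕ} {G : Type u} {G' : Type v} [Group G] [Group G'] (f : G →* G')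
    (hf : Function.Injective f) {H : Subgroup G} (h : Sm0 r (H.map f)) : Sm0 r H := by
  refine h.imp (fun h1 => ?_) fun h1 => ?_
  · rwa [← Subgroup.map_lowerCentralSeries, Subgroup.map_eq_bot_iff_of_injective _ hf] at h1
  · rwa [← ds_map, Subgroup.map_eq_bot_iff_of_injective _ hf] at h1

theorem w0_lcs {K : Type u} [Group K] (m : ℕ) (x : K) (l : List K) :
    w m x l ∈ (⊤ : Subgroup K).lowerCentralSeries (2 ^ (l.length + 1) - 2) := by
  induction l with
  | nil => exact Subgroup.mem_top _
  | cons y l ih =>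
    refine conj_step ?_ ih y
    have h1 : 2 ≤ 2 ^ (l.length + 1) := by
      calc 2 = 2 ^ 1 := by norm_num
        _ ≤ 2 ^ (l.length + 1) := Nat.pow_le_pow_right (by norm_num) (by omega)
    have h2 : 2 ^ ((y :: l).length + 1) = 2 * 2 ^ (l.length + 1) := by
      rw [List.length_cons]; ring
    omega

theorem w0_ds {K : Type u} [Group K] (m : ℕ) (x : K) (l : List K) :
    w m x l ∈ ds (⊤ : Subgroup K) l.length := by
  induction l with
  | nil => exact Subgroup.mem_top _
  | cons y l ih =>
    have h2 := (ds_normal (⊤ : Subgroup K) l.length).conj_mem _ ih y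
    exact Subgroup.commutator_mem_commutator ih h2

theorem law_of_sm0 {G : Type u} [Group G] (x : G) (l : List G)
    (h : Sm0 (l.length + 1) (gn (x :: l))) : w 1 x l = 1 := by
  obtain ⟨H, hH⟩ : ∃ H : Subgroup G, H = gn (x :: l) := ⟨_, rfl⟩
  have hx : x ∈ H := by rw [hH]; exact Subgroup.subset_closure (by simp)
  have hl' : ∀ z ∈ l, z ∈ H := fun z hz => by
    rw [hH]; exact Subgroup.subset_closure (by simp [hz])
  obtain ⟨l', rfl⟩ : ∃ l' : List H, l = l'.map H.subtype :=
    ⟨l.pmap (fun z hz => ⟨z, hz⟩) hl', by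
      rw [List.map_pmap]
      simp⟩
  rw [← hH] at h
  obtain ⟨x', rfl⟩ : ∃ x' : H, x = H.subtype x' := ⟨⟨x, hx⟩, rfl⟩
  rw [← w_map]
  have e : w 1 x' l' = 1 := by
    rw [List.length_map] at h
    rcases h with h | h
    · rw [← Subgroup.top_subtype_lowerCentralSeries,
        Subgroup.map_eq_bot_iff_of_injective _ H.subtype_injective] at h
      have h1 := w0_lcs 1 x' l'
      rw [h] at h1
      exact Subgroup.mem_bot.1 h1
    · have h2 : (ds (⊤ : Subgroup H) l'.length).map H.subtype = ⊥ := by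
        rw [ds_map, ← MonoidHom.range_eq_map, Subgroup.range_subtype]
        exact h
      rw [Subgroup.map_eq_bot_iff_of_injective _ H.subtype_injective] at h2
      have h1 := w0_ds 1 x' l'
      rw [h2] at h1
      exact Subgroup.mem_bot.1 h1
  rw [e, map_one]

theorem lf_sm0 {n : ℕ} (hn : n ≠ 0) {r : ℕ} (hr : 1 ≤ r) (G : Type u) [Group G]
    (hG : ∀ x : G, x ^ n = 1) (h : ∀ L : List G, L.length = r → Sm0 r (gn L)) : LFn G := by
  have hq : ∀ L : List (G ⧸ rad G), L.length = r → Sm0 r (gn L) := by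
    intro L hL
    obtain ⟨L', rfl⟩ : ∃ L' : List G, L = L'.map (QuotientGroup.mk' (rad G)) := by
      obtain ⟨L', h⟩ := List.map_surjective_iff.2 (QuotientGroup.mk'_surjective (rad G)) L
      exact ⟨L', h.symm⟩
    rw [← gn_map]
    exact (h L' (by simpa using hL)).map _
  have he : ∀ x : G ⧸ rad G, x ^ n = 1 := exp_quot _ fun x => by rw [hG]; exact one_mem _
  have h1 := law_pow (m := 1) hn he (rad_quot G) (r - 1) (by
    intro x l hl
    refine law_of_sm0 x l ?_
    rw [hl, show r - 1 + 1 = r by omega]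
    exact hq _ (by simp [hl]; omega))
  refine lf_of_rad ?_
  intro S hS
  have : Subsingleton (G ⧸ rad G) := ⟨fun a b => by
    have ha := h1 a
    have hb := h1 b
    rw [pow_one] at ha hb
    rw [ha, hb]⟩
  infer_instance

/-- soluble groups of finite exponent -/
theorem lf_sol {n : ℕ} (hn : n ≠ 0) (d : ℕ) : ∀ (G : Type u) [Group G], (∀ x : G, x ^ n = 1) →
    derivedSeries G d = ⊥ → LFn G := by
  induction d with
  | zero =>
    intro G _ _ h
    rw [derivedSeries_zero] at h
    intro S hS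
    have : Subsingleton G := ⟨fun a b => by
      have ha : a ∈ (⊤ : Subgroup G) := Subgroup.mem_top a
      have hb : b ∈ (⊤ : Subgroup G) := Subgroup.mem_top b
      rw [h] at ha hb
      rw [Subgroup.mem_bot.1 ha, Subgroup.mem_bot.1 hb]⟩
    infer_instance
  | succ d ih =>
    intro G _ hG h
    have hN : (derivedSeries G d).Normal := derivedSeries_normal G d
    refine LFn.ext (derivedSeries G d) ?_ (ih _ (exp_quot _ fun x => by rw [hG]; exact one_mem _) ?_)
    · refine lf_of_comm (n := n) ?_ hn fun x => Subtype.ext (hG x)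
      intro x y
      rw [derivedSeries_succ] at h
      have h1 : ⁅(x : G), (y : G)⁆ ∈ ⁅derivedSeries G d, derivedSeries G d⁆ :=
        Subgroup.commutator_mem_commutator x.2 y.2
      rw [h] at h1
      exact Subtype.ext (commutatorElement_eq_one_iff_mul_comm.1 (Subgroup.mem_bot.1 h1))
    · rw [← map_derivedSeries_eq (QuotientGroup.mk'_surjective (derivedSeries G d)),
        Subgroup.map_eq_bot_iff, QuotientGroup.ker_mk']

theorem finite_gn {n : ℕ} (hn : n ≠ 0) {G : Type u} [Group G] (hG : ∀ x : G, x ^ n = 1)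
    (L : List G) {d : ℕ} (h : ds (gn L) d = ⊥) : Finite (gn L) := by
  rw [← ds_eq, Subgroup.map_eq_bot_iff_of_injective _ (gn L).subtype_injective] at h
  have h1 := lf_sol hn d (gn L) (fun x => Subtype.ext (hG x)) h
  exact h1.fin (List.finite_toSet L) Subgroup.subset_closure

end Pool.Agent.W5h53.BC
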