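import Mathlib
import Pool.Agent.W5h53.BC.Chain
import Pool.Agent.W629.TwiceLF

set_option autoImplicit false
set_option linter.all false

/-!
# The general reduction with `r` generators
-/

open scoped commutatorElement

namespace Pool.Agent.W5h53.BC

universe u v

/-- lifting generators of `p`-subgroups of quotients -/
theorem lift_p {G : Type u} [Group G] (N : Subgroup G) [N.Normal] {p : ℕ} (hp : p.Prime)
    (L0 : List G) (hfin : Finite (gn L0))
    (hP : IsPGroup p (gn (L0.map (QuotientGroup.mk' N)))) :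
    ∃ L : List G, L.map (QuotientGroup.mk' N) = L0.map (QuotientGroup.mk' N) ∧
      IsPGroup p (gn L) := by
  haveI : Fact p.Prime := ⟨hp⟩
  obtain ⟨F, hF⟩ : ∃ F : Subgroup G, F = gn L0 := ⟨_, rfl⟩
  obtain ⟨E, hE⟩ : ∃ E : Subgroup (G ⧸ N), E = gn (L0.map (QuotientGroup.mk' N)) := ⟨_, rfl⟩
  have hmap : F.map (QuotientGroup.mk' N) = E := by rw [hF, hE, gn_map]
  rw [← hE] at hP
  rw [← hF] at hfin
  obtain ⟨f, hf⟩ : ∃ f : F →* E, ∀ z : F, ((f z : E) : G ⧸ N) = QuotientGroup.mk' N (z : G) :=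
    ⟨{ toFun := fun z => ⟨QuotientGroup.mk' N (z : G), by
          rw [← hmap]; exact Subgroup.mem_map_of_mem _ z.2⟩
       map_one' := rfl
       map_mul' := fun _ _ => rfl }, fun _ => rfl⟩
  have hfs : Function.Surjective f := by
    intro e
    have h1 : (e : G ⧸ N) ∈ F.map (QuotientGroup.mk' N) := by rw [hmap]; exact e.2
    obtain ⟨z, hz, hz'⟩ := h1
    exact ⟨⟨z, hz⟩, Subtype.ext ((hf _).trans hz')⟩
  obtain ⟨P⟩ : Nonempty (Sylow p F) := inferInstance
  have h1 := (P.mapSurjective hfs).is_maximal' (hP.to_subgroup ⊤) le_top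
  have h2 : ∀ e : E, ∃ z : F, z ∈ (P : Subgroup F) ∧ f z = e := by
    intro e
    have h3 : e ∈ ((P.mapSurjective hfs : Sylow p E) : Subgroup E) := by
      rw [← h1]; trivial
    rw [Sylow.coe_mapSurjective] at h3
    exact h3
  choose s hs hs' using h2
  have hmem : ∀ z ∈ L0, QuotientGroup.mk' N z ∈ E := by
    intro z hz
    rw [hE]
    exact Subgroup.subset_closure (List.mem_map_of_mem hz)
  refine ⟨L0.pmap (fun z hz => ((s ⟨QuotientGroup.mk' N z, hz⟩ : F) : G)) hmem, ?_, ?_⟩
  · rw [List.map_pmap]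
    have h3 : ∀ (z : G) (hz : QuotientGroup.mk' N z ∈ E),
        QuotientGroup.mk' N ((s ⟨QuotientGroup.mk' N z, hz⟩ : F) : G) = QuotientGroup.mk' N z := by
      intro z hz
      rw [← hf, hs']
    calc _ = L0.pmap (fun z (_ : QuotientGroup.mk' N z ∈ E) => QuotientGroup.mk' N z) hmem :=
          List.pmap_congr_left _ (fun z _ h _ => h3 z h)
      _ = L0.map (QuotientGroup.mk' N) := by rw [List.pmap_eq_map]
  · have h3 : gn (L0.pmap (fun z hz => ((s ⟨QuotientGroup.mk' N z, hz⟩ : F) : G)) hmem) ≤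
        (P : Subgroup F).map F.subtype := by
      unfold gn
      rw [Subgroup.closure_le]
      intro z hz
      rw [Set.mem_setOf_eq, List.mem_pmap] at hz
      obtain ⟨y, hy, rfl⟩ := hz
      exact ⟨_, hs _, rfl⟩
    exact (P.2.map F.subtype).to_le h3

theorem gn_pair {G : Type u} [Group G] (x y : G) : gn [x, y] = Subgroup.closure {x, y} := by
  unfold gn
  congr 1
  ext z
  simp

theorem gn_pad {G : Type u} [Group G] (x y : G) (s : ℕ) :
    gn (x :: y :: List.replicate s y) = Subgroup.closure {x, y} := by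
  unfold gn
  congr 1
  ext z
  simp only [Set.mem_setOf_eq, List.mem_cons, List.mem_replicate, Set.mem_insert_iff,
    Set.mem_singleton_iff]
  tauto

/-- conditions for the prime `p` -/
def L1 (p : ℕ) (G : Type u) [Group G] : Prop :=
  ∀ x y : G, IsPGroup p (Subgroup.closure {x, y}) →
    (Subgroup.closure {x, y * x * y⁻¹}).lowerCentralSeries 5 = ⊥

def L2 (p r : ℕ) (G : Type u) [Group G] : Prop :=
  ∀ L : List G, L.length = r → IsPGroup p (gn L) → Sm r (gn L)

def L3 (p r : ℕ) (G : Type u) [Group G] : Prop :=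
  ∀ L : List G, L.length = r → IsPGroup p (gn L) → Sm0 r (gn L)

/-- the condition for all primes -/
def PC (r : ℕ) (G : Type u) [Group G] : Prop :=
  ∀ p : ℕ, p.Prime → (p ≤ 3 ∧ (L1 p G ∨ L2 p r G)) ∨ L3 p r G

theorem lift_pair {G : Type u} [Group G] (N : Subgroup G) [N.Normal] {p : ℕ} (hp : p.Prime)
    (hfin : ∀ x y : G, Finite (Subgroup.closure {x, y})) (x y : G ⧸ N)
    (hP : IsPGroup p (Subgroup.closure {x, y})) :
    ∃ a b : G, QuotientGroup.mk' N a = x ∧ QuotientGroup.mk' N b = y ∧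
      IsPGroup p (Subgroup.closure {a, b}) := by
  obtain ⟨x, rfl⟩ := QuotientGroup.mk'_surjective _ x
  obtain ⟨y, rfl⟩ := QuotientGroup.mk'_surjective _ y
  obtain ⟨L, hL, hL'⟩ := lift_p N hp [x, y] (by rw [gn_pair]; exact hfin x y) (by
    rw [List.map_cons, List.map_cons, List.map_nil, gn_pair]; exact hP)
  obtain ⟨a, b, rfl⟩ : ∃ a b, L = [a, b] := by
    have h1 := congrArg List.length hL
    simp only [List.length_map, List.length_cons, List.length_nil] at h1
    exact List.length_eq_two.1 h1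
  simp only [List.map_cons, List.map_nil, List.cons.injEq, and_true] at hL
  rw [gn_pair] at hL'
  exact ⟨a, b, hL.1, hL.2, hL'⟩

theorem PC.quot {r : ℕ} {G : Type u} [Group G] (hfin : ∀ x y : G, Finite (Subgroup.closure {x, y}))
    (hfin' : ∀ L : List G, L.length = r → Finite (gn L)) (h : PC r G) (N : Subgroup G) [N.Normal] :
    PC r (G ⧸ N) := by
  intro p hp
  rcases h p hp with ⟨hp3, h2 | h2⟩ | h2
  · refine Or.inl ⟨hp3, Or.inl ?_⟩
    intro x y hxy
    obtain ⟨a, b, rfl, rfl, hab⟩ := lift_pair N hp hfin x y hxy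
    exact five_map (QuotientGroup.mk' N) (h2 a b hab)
  · refine Or.inl ⟨hp3, Or.inr ?_⟩
    intro L hL hLp
    obtain ⟨L', rfl⟩ : ∃ L' : List G, L = L'.map (QuotientGroup.mk' N) := by
      obtain ⟨L', h⟩ := List.map_surjective_iff.2 (QuotientGroup.mk'_surjective N) L
      exact ⟨L', h.symm⟩
    rw [List.length_map] at hL
    obtain ⟨L, h3, h4⟩ := lift_p N hp L' (hfin' L' hL) hLp
    rw [← h3, ← gn_map]
    refine (h2 L ?_ h4).map _
    rw [← hL, ← List.length_map (f := QuotientGroup.mk' N), h3, List.length_map]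
  · refine Or.inr ?_
    intro L hL hLp
    obtain ⟨L', rfl⟩ : ∃ L' : List G, L = L'.map (QuotientGroup.mk' N) := by
      obtain ⟨L', h⟩ := List.map_surjective_iff.2 (QuotientGroup.mk'_surjective N) L
      exact ⟨L', h.symm⟩
    rw [List.length_map] at hL
    obtain ⟨L, h3, h4⟩ := lift_p N hp L' (hfin' L' hL) hLp
    rw [← h3, ← gn_map]
    refine (h2 L ?_ h4).map _
    rw [← hL, ← List.length_map (f := QuotientGroup.mk' N), h3, List.length_map]

theorem isP_of_le {Q : Type u} [Group Q] (N : Subgroup Q) {p k : ℕ}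
    (hN : ∀ x ∈ N, x ^ p ^ k = 1) {S : Set Q} (hS : S ⊆ N) : IsPGroup p (Subgroup.closure S) := by
  intro g
  refine ⟨k, Subtype.ext (hN g ?_)⟩
  have h1 : Subgroup.closure S ≤ N := by
    rw [Subgroup.closure_le]
    exact hS
  exact h1 g.2

theorem pair_sub {Q : Type u} [Group Q] (N : Subgroup Q) (x y : N) :
    ({(x : Q), (y : Q)} : Set Q) ⊆ N := by
  rintro z (rfl | hz)
  · exact x.2
  · rw [Set.mem_singleton_iff] at hz
    rw [hz]; exact y.2

theorem lf_normal2 {r : ℕ} (hr : 2 ≤ r) {Q : Type u} [Group Q] (h : PC r Q) (N : Subgroup Q)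
    {p k : ℕ} (hp : p.Prime) (hN : ∀ x ∈ N, x ^ p ^ k = 1) : LFn N := by
  have hNe : ∀ x : N, x ^ p ^ k = 1 := fun x => Subtype.ext (hN x x.2)
  rcases h p hp with ⟨hp3, h1 | h1⟩ | h1
  · have h23 : p = 2 ∨ p = 3 := by
      have := hp.two_le
      omega
    refine lf_pp p h23 k N hNe ?_
    intro x y
    refine five_comap N.subtype N.subtype_injective ?_
    rw [Subgroup.subtype_apply, Subgroup.subtype_apply]
    exact h1 x y (isP_of_le N hN (pair_sub N x y))
  · have h23 : p = 2 ∨ p = 3 := by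
      have := hp.two_le
      omega
    refine lf_pp_gen p h23 r hr k N hNe ?_
    intro L hL
    refine Sm.of_map N.subtype N.subtype_injective ?_
    rw [gn_map]
    refine h1 _ (by rw [List.length_map, hL]) (isP_of_le N hN ?_)
    intro z hz
    rw [Set.mem_setOf_eq, List.mem_map] at hz
    obtain ⟨y, -, rfl⟩ := hz
    exact y.2
  · refine lf_sm0 (pow_ne_zero k hp.ne_zero) (by omega : 1 ≤ r) N hNe ?_
    intro L hL
    refine Sm0.of_map N.subtype N.subtype_injective ?_
    rw [gn_map]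
    refine h1 _ (by rw [List.length_map, hL]) (isP_of_le N hN ?_)
    intro z hz
    rw [Set.mem_setOf_eq, List.mem_map] at hz
    obtain ⟨y, -, rfl⟩ := hz
    exact y.2

/-- transfer along injective homomorphisms -/
theorem PC.inj {r : ℕ} {G : Type u} {Q : Type v} [Group G] [Group Q] (f : Q →* G)
    (hf : Function.Injective f) (h : PC r G) : PC r Q := by
  intro p hp
  rcases h p hp with ⟨hp3, h2 | h2⟩ | h2
  · refine Or.inl ⟨hp3, Or.inl ?_⟩
    intro x y hxy
    refine five_comap f hf (h2 _ _ ?_)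
    rw [← pair_map]
    exact hxy.map f
  · refine Or.inl ⟨hp3, Or.inr ?_⟩
    intro L hL hLp
    refine Sm.of_map f hf ?_
    rw [gn_map]
    refine h2 _ (by rw [List.length_map, hL]) ?_
    rw [← gn_map]
    exact hLp.map f
  · refine Or.inr ?_
    intro L hL hLp
    refine Sm0.of_map f hf ?_
    rw [gn_map]
    refine h2 _ (by rw [List.length_map, hL]) ?_
    rw [← gn_map]
    exact hLp.map f

/-- prime power exponent -/
theorem lf_prime_pow {r : ℕ} (hr : 2 ≤ r) {p k : ℕ} (hp : p.Prime) (G : Type u) [Group G]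
    (hG : ∀ x : G, x ^ p ^ k = 1) (h : PC r G) : LFn G :=
  LFn.image (Subgroup.topEquiv (G := G)).toMonoidHom (Subgroup.topEquiv (G := G)).surjective
    (lf_normal2 hr h ⊤ hp fun x _ => hG x)

/-- the principle -/
theorem lf_gen2 {r : ℕ} (hr : 2 ≤ r) (V : (G : Type u) → [Group G] → Prop)
    (hVq : ∀ (G : Type u) [Group G] (N : Subgroup G) [N.Normal], V G → V (G ⧸ N))
    (hV : ∀ (G : Type u) [Group G], V G → Nontrivial G → ∃ p k : ℕ, p.Prime ∧
      ∃ N : Subgroup G, N.Normal ∧ N ≠ ⊥ ∧ ∀ x ∈ N, x ^ p ^ k = 1)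
    (G : Type u) [Group G] (hfin : ∀ L : List G, L.length = r → Finite (gn L)) (hG : V G)
    (hL : PC r G) : LFn G := by
  have hfin2 : ∀ x y : G, Finite (Subgroup.closure {x, y}) := by
    intro x y
    rw [← gn_pad x y (r - 2)]
    exact hfin _ (by simp; omega)
  refine lf_of_rad ?_
  by_cases hnt : Nontrivial (G ⧸ rad G)
  · exfalso
    obtain ⟨p, k, hp, N, hN, hN', h1⟩ := hV _ (hVq _ (rad G) hG) hnt
    have h2 := lf_normal2 hr (hL.quot hfin2 hfin (rad G)) N hp h1
    have h3 := le_rad hN h2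
    rw [rad_quot, le_bot_iff] at h3
    exact hN' h3
  · rw [not_nontrivial_iff_subsingleton] at hnt
    intro S hS
    infer_instance

open Pool.Agent.H32BU in
theorem DD_le {G : Type} [Group G] (A : Subgroup G) (m : ℕ) : DD A m ≤ ds A m := by
  induction m with
  | zero => exact le_rfl
  | succ m ih =>
    show NR (DD A m) ≤ ⁅ds A m, ds A m⁆
    unfold NR
    rw [Subgroup.closure_le]
    rintro g ⟨x, hx, y, hy, a, b, -, -, -, rfl⟩
    exact Subgroup.commutator_mem_commutator (ih hx) (ih hy)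

theorem gn_three {G : Type u} [Group G] (x y z : G) (s : ℕ) :
    gn (x :: y :: z :: List.replicate s z) = Subgroup.closure {x, y, z} := by
  unfold gn
  congr 1
  ext t
  simp only [Set.mem_setOf_eq, List.mem_cons, List.mem_replicate, Set.mem_insert_iff,
    Set.mem_singleton_iff]
  tauto

open Pool.Agent.H32BU in
/-- all exponents: three generators -/
theorem lf_three {n : ℕ} (hn : n ≠ 0) {r : ℕ} (hr : 3 ≤ r) (d : ℕ) (G : Type u) [Group G]
    (hG : ∀ x : G, x ^ n = 1) (hd : ∀ L : List G, L.length = r → ds (gn L) d = ⊥) (h : PC r G) :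
    LFn G := by
  intro S hS
  refine Pool.Agent.W629.finite_closure_u S hS fun Q _ f hf => ?_
  have hV : HSC (fun (G : Type) [Group G] => (∀ x : G, x ^ n = 1) ∧
      (∀ L : List G, L.length = r → ds (gn L) d = ⊥) ∧ PC r G) := by
    refine ⟨?_, ?_⟩
    · rintro G _ A ⟨h1, h2, h3⟩
      refine ⟨fun x => Subtype.ext (h1 x), fun L hL => ?_, h3.inj A.subtype A.subtype_injective⟩
      have h4 := h2 (L.map A.subtype) (by rw [List.length_map, hL])
      rw [← gn_map, ← ds_map, Subgroup.map_eq_bot_iff_of_injective _ A.subtype_injective] at h4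
      exact h4
    · rintro G _ N _ ⟨h1, h2, h3⟩
      have hfin : ∀ L : List G, L.length = r → Finite (gn L) := fun L hL =>
        finite_gn hn h1 L (h2 L hL)
      have hfin2 : ∀ x y : G, Finite (Subgroup.closure {x, y}) := by
        intro x y
        rw [← gn_pad x y (r - 2)]
        exact hfin _ (by simp; omega)
      refine ⟨exp_quot N fun x => by rw [h1]; exact one_mem _, fun L hL => ?_,
        h3.quot hfin2 hfin N⟩
      obtain ⟨L', rfl⟩ : ∃ L' : List G, L = L'.map (QuotientGroup.mk' N) := by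
        obtain ⟨L', h⟩ := List.map_surjective_iff.2 (QuotientGroup.mk'_surjective N) L
        exact ⟨L', h.symm⟩
      rw [← gn_map, ← ds_map, h2 L' (by simpa using hL), Subgroup.map_bot]
  have hQ : (∀ x : Q, x ^ n = 1) ∧ (∀ L : List Q, L.length = r → ds (gn L) d = ⊥) ∧ PC r Q := by
    refine ⟨fun x => hf (by rw [map_pow, map_one]; exact hG _), fun L hL => ?_, h.inj f hf⟩
    have h4 := hd (L.map f) (by rw [List.length_map, hL])
    rw [← gn_map, ← ds_map, Subgroup.map_eq_bot_iff_of_injective _ hf] at h4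
    exact h4
  refine x_INDV _ hV n (by omega) ?_ d Q hQ hQ.1 ?_
  · rintro p hp G _ ⟨-, -, h3⟩ h4 T
    exact lf_prime_pow (by omega) hp G h4 h3 _ T.finite_toSet
  · intro a x z
    have e : gn (a :: x :: z :: List.replicate (r - 3) z) = c3 a x z := gn_three a x z (r - 3)
    have h5 := hQ.2.1 (a :: x :: z :: List.replicate (r - 3) z) (by simp; omega)
    have h6 := finite_gn hn hQ.1 _ h5
    rw [e] at h5 h6
    refine ⟨h6, ?_, ?_⟩
    · rw [← ds_eq, Subgroup.map_eq_bot_iff_of_injective _ (c3 a x z).subtype_injective] at h5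
      exact ⟨⟨d, h5⟩⟩
    · rw [← le_bot_iff, ← h5]
      exact DD_le _ _

end Pool.Agent.W5h53.BC
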